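import Pool.Agent.Helper74.CW.BIG

/-!
# Planes of the first type
-/

namespace Pool.Agent.Helper74.CW

open Module Polynomial

variable {F K : Type*} [Field F] [Field K] [Algebra F K]

private lemma tyi_two {P Q : F[X]} (hP : P.natDegree ≤ 1) (hQ : Q.natDegree ≤ 1) :
    (∃ l m l' m' : F, C l * P + C m * Q = 1 ∧ C l' * P + C m' * Q = X) ∨
      ∃ l m : F, ¬ (l = 0 ∧ m = 0) ∧ C l * P + C m * Q = 0 := by
  obtain ⟨p0, p1, rfl⟩ : ∃ a b : F, P = C a + C b * X := by
    refine ⟨P.coeff 0, P.coeff 1, ?_⟩
    rw [add_comm]
    exact Polynomial.eq_X_add_C_of_natDegree_le_one hP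
  obtain ⟨q0, q1, rfl⟩ : ∃ a b : F, Q = C a + C b * X := by
    refine ⟨Q.coeff 0, Q.coeff 1, ?_⟩
    rw [add_comm]
    exact Polynomial.eq_X_add_C_of_natDegree_le_one hQ
  by_cases hdet : p0 * q1 - p1 * q0 = 0
  · right
    by_cases h1 : p1 = 0 ∧ q1 = 0
    · by_cases h2 : p0 = 0 ∧ q0 = 0
      · refine ⟨1, 0, by simp, ?_⟩
        rw [h1.1, h2.1]
        simp
      · refine ⟨q0, -p0, fun h => h2 ⟨by simpa using h.2, h.1⟩, ?_⟩
        rw [h1.1, h1.2]
        simp only [map_neg, map_zero]
        ring
    · refine ⟨q1, -p1, fun h => h1 ⟨by simpa using h.2, h.1⟩, ?_⟩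
      have : C q1 * (C p0 + C p1 * X) + C (-p1) * (C q0 + C q1 * X) =
          C (p0 * q1 - p1 * q0) := by
        simp only [map_neg, map_sub, map_mul]
        ring
      rw [this, hdet, map_zero]
  · left
    set D := p0 * q1 - p1 * q0 with hD
    refine ⟨D⁻¹ * q1, -(D⁻¹ * p1), -(D⁻¹ * q0), D⁻¹ * p0, ?_, ?_⟩
    · have : C (D⁻¹ * q1) * (C p0 + C p1 * X) + C (-(D⁻¹ * p1)) * (C q0 + C q1 * X) =
          C (D⁻¹ * D) := by
        rw [hD]
        simp only [map_neg, map_sub, map_mul]
        ring
      rw [this, inv_mul_cancel₀ hdet, map_one]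
    · have : C (-(D⁻¹ * q0)) * (C p0 + C p1 * X) + C (D⁻¹ * p0) * (C q0 + C q1 * X) =
          C (D⁻¹ * D) * X := by
        rw [hD]
        simp only [map_neg, map_sub, map_mul]
        ring
      rw [this, inv_mul_cancel₀ hdet, map_one, one_mul]

private lemma tyi_aeval_one {t : K} {P : F[X]} (hP : P.natDegree ≤ 1) :
    aeval t P = algebraMap F K (P.coeff 0) + algebraMap F K (P.coeff 1) * t := by
  have h : P = C (P.coeff 1) * X + C (P.coeff 0) :=
    Polynomial.eq_X_add_C_of_natDegree_le_one hP
  conv_lhs => rw [h]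
  simp only [map_add, map_mul, aeval_C, aeval_X]
  ring

private lemma tyi_aeval_two {t : K} {P : F[X]} (hP : P.natDegree ≤ 2) :
    aeval t P = algebraMap F K (P.coeff 0) + algebraMap F K (P.coeff 1) * t +
      algebraMap F K (P.coeff 2) * t ^ 2 := by
  rw [Polynomial.aeval_eq_sum_range' (n := 3) (by omega)]
  simp only [Finset.sum_range_succ, Finset.range_zero, Finset.sum_empty, Algebra.smul_def]
  ring

private lemma tyi_core (hB : Big F K) {t z : K} (ht : t ∉ Set.range (algebraMap F K))
    (hz : z ≠ 0) (hS : ∀ a b c : F, algebraMap F K a * (t * z) + algebraMap F K b * z +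
      algebraMap F K c * t = 0 → a = 0 ∧ b = 0 ∧ c = 0)
    {A B E : Fin 2 → F[X]} (hA : ∀ i, (A i).natDegree ≤ 1) (hBd : ∀ i, (B i).natDegree ≤ 2)
    (hE : ∀ i, (E i).natDegree ≤ 1)
    (hrel : ∀ i, aeval t (A i) * z ^ 2 + aeval t (B i) * z + t * aeval t (E i) = 0)
    (hind : ∀ l m : F, C l * A 0 + C m * A 1 = 0 → C l * B 0 + C m * B 1 = 0 →
      C l * E 0 + C m * E 1 = 0 → l = 0 ∧ m = 0) :
    ∃ a b c : F, (z ^ 2 = algebraMap F K a * (t * z) + algebraMap F K b * z +
      algebraMap F K c * t) ∨ (1 = algebraMap F K a * (t * z) + algebraMap F K b * z +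
      algebraMap F K c * t) ∨ (t ^ 2 = algebraMap F K a * (t * z) + algebraMap F K b * z +
      algebraMap F K c * t) := by
  have ht0 : t ≠ 0 := by
    rintro rfl
    exact ht ⟨0, map_zero _⟩
  set e := A 0 * E 1 - A 1 * E 0 with he
  set d := A 0 * B 1 - A 1 * B 0 with hd
  set f := B 0 * E 1 - B 1 * E 0 with hf
  have he2 : e.natDegree ≤ 2 := by
    refine le_trans (natDegree_sub_le _ _) (max_le ?_ ?_)
    · exact le_trans natDegree_mul_le (add_le_add (hA 0) (hE 1))
    · exact le_trans natDegree_mul_le (add_le_add (hA 1) (hE 0))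
  have hd3 : d.natDegree ≤ 3 := by
    refine le_trans (natDegree_sub_le _ _) (max_le ?_ ?_)
    · exact le_trans natDegree_mul_le (add_le_add (hA 0) (hBd 1))
    · exact le_trans natDegree_mul_le (add_le_add (hA 1) (hBd 0))
  have hf3 : f.natDegree ≤ 3 := by
    refine le_trans (natDegree_sub_le _ _) (max_le ?_ ?_)
    · exact le_trans natDegree_mul_le (add_le_add (hBd 0) (hE 1))
    · exact le_trans natDegree_mul_le (add_le_add (hBd 1) (hE 0))
  have E1 : z * aeval t d + t * aeval t e = 0 := by
    rw [hd, he]
    simp only [map_sub, map_mul]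
    linear_combination aeval t (A 0) * hrel 1 - aeval t (A 1) * hrel 0
  have E2 : z * aeval t e + aeval t f = 0 := by
    have : z * (z * aeval t e + aeval t f) = 0 := by
      rw [hf, he]
      simp only [map_sub, map_mul]
      linear_combination aeval t (E 1) * hrel 0 - aeval t (E 0) * hrel 1
    exact (mul_eq_zero.1 this).resolve_left hz
  by_cases he0 : e = 0
  · -- proportional relations
    have hd0 : d = 0 := by
      refine hB.poly ht (by omega) ?_
      rw [he0, map_zero, mul_zero, add_zero] at E1
      exact (mul_eq_zero.1 E1).resolve_left hz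
    have hf0 : f = 0 := by
      refine hB.poly ht (by omega) ?_
      rw [he0, map_zero, mul_zero, zero_add] at E2
      exact E2
    rw [he0] at he
    rw [hd0] at hd
    rw [hf0] at hf
    have comb : ∀ l m : F, aeval t (C l * A 0 + C m * A 1) * z ^ 2 +
        aeval t (C l * B 0 + C m * B 1) * z + t * aeval t (C l * E 0 + C m * E 1) = 0 := by
      intro l m
      simp only [map_add, map_mul, aeval_C]
      linear_combination algebraMap F K l * hrel 0 + algebraMap F K m * hrel 1
    have degB : ∀ l m : F, (C l * B 0 + C m * B 1).natDegree ≤ 2 := by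
      intro l m
      refine le_trans (natDegree_add_le _ _) (max_le ?_ ?_)
      · exact le_trans (natDegree_C_mul_le _ _) (hBd 0)
      · exact le_trans (natDegree_C_mul_le _ _) (hBd 1)
    have degE : ∀ l m : F, (C l * E 0 + C m * E 1).natDegree ≤ 1 := by
      intro l m
      refine le_trans (natDegree_add_le _ _) (max_le ?_ ?_)
      · exact le_trans (natDegree_C_mul_le _ _) (hE 0)
      · exact le_trans (natDegree_C_mul_le _ _) (hE 1)
    have degX : ∀ {P Q : F[X]} {n : ℕ}, Q = X * P → Q.natDegree ≤ n + 1 → P.natDegree ≤ n := by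
      intro P Q n h1 h2
      by_cases hP : P = 0
      · rw [hP]
        simp
      · rw [h1, natDegree_mul X_ne_zero hP, natDegree_X] at h2
        omega
    rcases tyi_two (hA 0) (hA 1) with ⟨l, m, l', m', h1, h2⟩ | ⟨l, m, hlm, h1⟩
    · have hb : C l' * B 0 + C m' * B 1 = X * (C l * B 0 + C m * B 1) := by
        have h3 : (C l * A 0 + C m * A 1) * (C l' * B 0 + C m' * B 1) =
            (C l' * A 0 + C m' * A 1) * (C l * B 0 + C m * B 1) := by
          linear_combination (C l' * C m - C l * C m') * hd
        rw [h1, h2, one_mul] at h3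
        exact h3
      have hc : C l' * E 0 + C m' * E 1 = X * (C l * E 0 + C m * E 1) := by
        have h3 : (C l * A 0 + C m * A 1) * (C l' * E 0 + C m' * E 1) =
            (C l' * A 0 + C m' * A 1) * (C l * E 0 + C m * E 1) := by
          linear_combination (C l' * C m - C l * C m') * he
        rw [h1, h2, one_mul] at h3
        exact h3
      have hb1 := degX hb (degB l' m')
      have hc1 := degX (n := 0) hc (degE l' m')
      have h3 := comb l m
      rw [h1, map_one, one_mul, tyi_aeval_one hb1] at h3
      obtain ⟨c0, hc0⟩ : ∃ c0, C l * E 0 + C m * E 1 = C c0 :=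
        ⟨_, eq_C_of_natDegree_le_zero hc1⟩
      rw [hc0, aeval_C] at h3
      refine ⟨-(C l * B 0 + C m * B 1).coeff 1, -(C l * B 0 + C m * B 1).coeff 0, -c0,
        Or.inl ?_⟩
      rw [map_neg, map_neg, map_neg]
      linear_combination h3
    · -- `A = 0`
      exfalso
      have hA0 : A 0 = 0 ∧ A 1 = 0 := by
        have b0 : A 0 * (C l * B 0 + C m * B 1) = 0 := by
          linear_combination B 0 * h1 - C m * hd
        have b1 : A 1 * (C l * B 0 + C m * B 1) = 0 := by
          linear_combination B 1 * h1 + C l * hd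
        have c0 : A 0 * (C l * E 0 + C m * E 1) = 0 := by
          linear_combination E 0 * h1 - C m * he
        have c1 : A 1 * (C l * E 0 + C m * E 1) = 0 := by
          linear_combination E 1 * h1 + C l * he
        by_cases hb : C l * B 0 + C m * B 1 = 0
        · by_cases hc : C l * E 0 + C m * E 1 = 0
          · exact absurd (hind l m h1 hb hc) hlm
          · exact ⟨(mul_eq_zero.1 c0).resolve_right hc, (mul_eq_zero.1 c1).resolve_right hc⟩
        · exact ⟨(mul_eq_zero.1 b0).resolve_right hb, (mul_eq_zero.1 b1).resolve_right hb⟩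
      rcases tyi_two (hE 0) (hE 1) with ⟨l, m, l', m', h1, h2⟩ | ⟨l, m, hlm, h1⟩
      · have hb : C l' * B 0 + C m' * B 1 = X * (C l * B 0 + C m * B 1) := by
          have h3 : (C l * E 0 + C m * E 1) * (C l' * B 0 + C m' * B 1) =
              (C l' * E 0 + C m' * E 1) * (C l * B 0 + C m * B 1) := by
            linear_combination (C l * C m' - C l' * C m) * hf
          rw [h1, h2, one_mul] at h3
          exact h3
        have hb1 := degX hb (degB l' m')
        have h3 := comb l m
        rw [h1, map_one, mul_one, tyi_aeval_one hb1, hA0.1, hA0.2, mul_zero, mul_zero, add_zero,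
          map_zero, zero_mul, zero_add] at h3
        have h4 := hS ((C l * B 0 + C m * B 1).coeff 1) ((C l * B 0 + C m * B 1).coeff 0) 1 (by
          rw [map_one]
          linear_combination h3)
        exact one_ne_zero h4.2.2
      · have h3 := comb l m
        rw [h1, hA0.1, hA0.2, mul_zero, mul_zero, add_zero, map_zero, zero_mul, zero_add,
          mul_zero, add_zero] at h3
        have h4 : C l * B 0 + C m * B 1 = 0 := by
          refine hB.poly ht (le_trans (degB l m) (by norm_num)) ?_
          exact (mul_eq_zero.1 h3).resolve_right hz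
        refine hlm (hind l m ?_ h4 h1)
        rw [hA0.1, hA0.2]
        simp
  · -- the main case
    have hid : X * e ^ 2 = d * f := by
      rw [← sub_eq_zero]
      refine hB.poly ht ?_ ?_
      · refine le_trans (natDegree_sub_le _ _) (max_le ?_ ?_)
        · refine le_trans natDegree_mul_le ?_
          have := natDegree_pow_le (p := e) (n := 2)
          rw [natDegree_X]
          omega
        · exact le_trans natDegree_mul_le (by omega)
      · simp only [map_sub, map_mul, map_pow, aeval_X]
        linear_combination aeval t e * E1 - aeval t d * E2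
    have hdf : d * f ≠ 0 := by
      rw [← hid]
      exact mul_ne_zero X_ne_zero (pow_ne_zero _ he0)
    have hdn : d ≠ 0 := left_ne_zero_of_mul hdf
    have hfn : f ≠ 0 := right_ne_zero_of_mul hdf
    obtain ⟨k, h, g, hk, hg, hco⟩ : ∃ k h g : F[X], e = k * h ∧ f = k * g ∧ IsCoprime h g := by
      classical
      let _ : GCDMonoid F[X] := EuclideanDomain.gcdMonoid F[X]
      obtain ⟨h, g, h1, h2, h3⟩ := extract_gcd e f
      exact ⟨_, h, g, h1, h2, (gcd_isUnit_iff h g).1 h3⟩
    have hkn : k ≠ 0 := by
      rintro rfl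
      exact he0 (by rw [hk, zero_mul])
    have hhn : h ≠ 0 := by
      rintro rfl
      exact he0 (by rw [hk, mul_zero])
    have hgn : g ≠ 0 := by
      rintro rfl
      exact hfn (by rw [hg, mul_zero])
    have hid2 : X * k * h ^ 2 = d * g := by
      have : k * (X * k * h ^ 2) = k * (d * g) := by
        rw [hk, hg] at hid
        linear_combination hid
      exact mul_left_cancel₀ hkn this
    obtain ⟨m, hm⟩ : h ^ 2 ∣ d := by
      refine (hco.pow_left : IsCoprime (h ^ 2) g).dvd_of_dvd_mul_right ⟨X * k, ?_⟩
      rw [← hid2]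
      ring
    have hid3 : X * k = m * g := by
      have : h ^ 2 * (X * k) = h ^ 2 * (m * g) := by
        rw [hm] at hid2
        linear_combination hid2
      exact mul_left_cancel₀ (pow_ne_zero 2 hhn) this
    have hmn : m ≠ 0 := by
      rintro rfl
      exact hdn (by rw [hm, mul_zero])
    have n1 : k.natDegree + h.natDegree ≤ 2 := by
      rw [← natDegree_mul hkn hhn, ← hk]
      exact he2
    have n2 : k.natDegree + g.natDegree ≤ 3 := by
      rw [← natDegree_mul hkn hgn, ← hg]
      exact hf3
    have n3 : 2 * h.natDegree + m.natDegree ≤ 3 := by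
      rw [← natDegree_pow, ← natDegree_mul (pow_ne_zero 2 hhn) hmn, ← hm]
      exact hd3
    have n4 : 1 + k.natDegree = m.natDegree + g.natDegree := by
      rw [← natDegree_mul hmn hgn, ← hid3, natDegree_mul X_ne_zero hkn, natDegree_X]
    have hrel2 : aeval t h * z + aeval t g = 0 := by
      rw [hk, hg] at E2
      simp only [map_mul] at E2
      have h5 : aeval t k ≠ 0 := fun h0 => hkn (hB.poly ht (by omega) h0)
      have : aeval t k * (aeval t h * z + aeval t g) = 0 := by
        linear_combination E2
      exact (mul_eq_zero.1 this).resolve_left h5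
    have hg2 : g.natDegree ≤ 2 := by omega
    have hh1 : h.natDegree ≤ 1 := by omega
    rw [tyi_aeval_one hh1, tyi_aeval_two hg2] at hrel2
    have hhc : ¬ (h.coeff 0 = 0 ∧ h.coeff 1 = 0) := by
      rintro ⟨h6, h7⟩
      apply hhn
      rw [eq_X_add_C_of_natDegree_le_one hh1, h6, h7]
      simp
    have key : ¬ (g.coeff 0 = 0 ∧ g.coeff 2 = 0) := by
      rintro ⟨h6, h7⟩
      rw [h6, h7, map_zero, zero_add, zero_mul, add_zero] at hrel2
      have h8 := hS (h.coeff 1) (h.coeff 0) (g.coeff 1) (by linear_combination hrel2)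
      exact hhc ⟨h8.2.1, h8.1⟩
    by_cases hg0 : g.coeff 0 = 0
    · have hg2' : g.coeff 2 ≠ 0 := fun h6 => key ⟨hg0, h6⟩
      have hm2 : algebraMap F K (g.coeff 2) ≠ 0 := by
        rw [Ne, map_eq_zero]
        exact hg2'
      refine ⟨-(h.coeff 1 / g.coeff 2), -(h.coeff 0 / g.coeff 2), -(g.coeff 1 / g.coeff 2),
        Or.inr (Or.inr ?_)⟩
      rw [hg0, map_zero, zero_add] at hrel2
      simp only [map_neg, map_div₀]
      field_simp
      linear_combination hrel2
    · have hg1 : g.natDegree ≤ 1 := by
        have hX : ¬ X ∣ g := by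
          rw [X_dvd_iff]
          exact hg0
        obtain ⟨m', hm'⟩ : X ∣ m := by
          have h6 : X ∣ m * g := ⟨k, by rw [← hid3]⟩
          exact (prime_X.dvd_or_dvd h6).resolve_right hX
        have h7 : k = m' * g := by
          have : X * k = X * (m' * g) := by
            rw [hid3, hm']
            ring
          exact mul_left_cancel₀ X_ne_zero this
        have hm'n : m' ≠ 0 := by
          rintro rfl
          exact hmn (by rw [hm', mul_zero])
        have h8 : k.natDegree = m'.natDegree + g.natDegree := by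
          rw [h7, natDegree_mul hm'n hgn]
        omega
      have hg2' : g.coeff 2 = 0 := coeff_eq_zero_of_natDegree_lt (by omega)
      have hm2 : algebraMap F K (g.coeff 0) ≠ 0 := by
        rw [Ne, map_eq_zero]
        exact hg0
      refine ⟨-(h.coeff 1 / g.coeff 0), -(h.coeff 0 / g.coeff 0), -(g.coeff 1 / g.coeff 0),
        Or.inr (Or.inl ?_)⟩
      rw [hg2', map_zero, zero_mul, add_zero] at hrel2
      simp only [map_neg, map_div₀]
      field_simp
      linear_combination hrel2

private lemma tyi_sc {ξ : K} {T : Submodule F K} (hξ : ξ ≠ 0) :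
    finrank F (sc ξ T) = finrank F T := by
  have h3 : Function.Injective (LinearMap.mulLeft F ξ) := by
    intro x y hxy
    simp only [LinearMap.mulLeft_apply] at hxy
    exact mul_left_cancel₀ hξ hxy
  unfold sc
  exact (LinearEquiv.finrank_eq (Submodule.equivMapOfInjective _ h3 _)).symm

private lemma tyi_span (x y z : K) : Submodule.span F (Set.range ![x, y, z]) =
    Submodule.span F {x, y, z} := by
  congr 1
  ext w
  simp only [Set.mem_range, Fin.exists_fin_succ, Set.mem_insert_iff, Set.mem_singleton_iff]
  simp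
  tauto

theorem type_one (hB : Big F K) {x y z : K} (hT : LinearIndependent F ![x, y, z])
    (hS : LinearIndependent F ![y * z, x * z, x * y]) {c d : Fin 7 → F}
    (hcd : LinearIndependent F ![c, d])
    (hc : c 0 • (x ^ 2 * y) + c 1 • (x ^ 2 * z) + c 2 • (x * y ^ 2) + c 3 • (y ^ 2 * z) +
      c 4 • (x * z ^ 2) + c 5 • (y * z ^ 2) + c 6 • (x * y * z) = 0)
    (hd : d 0 • (x ^ 2 * y) + d 1 • (x ^ 2 * z) + d 2 • (x * y ^ 2) + d 3 • (y ^ 2 * z) +
      d 4 • (x * z ^ 2) + d 5 • (y * z ^ 2) + d 6 • (x * y * z) = 0) :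
    Sim (Submodule.span F {y * z, x * z, x * y}) (Submodule.span F {x, y, z}) := by
  have hx : x ≠ 0 := by simpa using hT.ne_zero 0
  have hy : y ≠ 0 := by simpa using hT.ne_zero 1
  have hz : z ≠ 0 := by simpa using hT.ne_zero 2
  -- if the square of an element of the basis is in `S`, we are done
  have fin : ∀ w ∈ ({x, y, z} : Set K), w ^ 2 ∈ Submodule.span F {y * z, x * z, x * y} →
      Sim (Submodule.span F {y * z, x * z, x * y}) (Submodule.span F {x, y, z}) := by
    intro w hw hw2
    have hw0 : w ≠ 0 := by
      rcases hw with rfl | rfl | rfl <;> assumption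
    refine ⟨w, hw0, ?_⟩
    have hfS : finrank F (Submodule.span F {y * z, x * z, x * y}) = 3 := by
      rw [← tyi_span, finrank_span_eq_card hS]
      simp
    have hfT : finrank F (Submodule.span F {x, y, z}) = 3 := by
      rw [← tyi_span, finrank_span_eq_card hT]
      simp
    have hfin : FiniteDimensional F (Submodule.span F {y * z, x * z, x * y}) :=
      FiniteDimensional.of_finrank_pos (by omega)
    have e1 : y * z ∈ Submodule.span F {y * z, x * z, x * y} := Submodule.subset_span (by simp)
    have e2 : x * z ∈ Submodule.span F {y * z, x * z, x * y} := Submodule.subset_span (by simp)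
    have e3 : x * y ∈ Submodule.span F {y * z, x * z, x * y} := Submodule.subset_span (by simp)
    symm
    refine Submodule.eq_of_le_of_finrank_eq ?_ (by rw [tyi_sc hw0, hfS, hfT])
    unfold sc
    rw [Submodule.map_span_le]
    intro v hv
    rw [LinearMap.mulLeft_apply]
    simp only [Set.mem_insert_iff, Set.mem_singleton_iff] at hv hw
    rcases hw with rfl | rfl | rfl <;> rcases hv with rfl | rfl | rfl
    · rwa [← sq]
    · exact e3
    · exact e2
    · rwa [mul_comm w v]
    · rwa [← sq]
    · exact e1
    · rwa [mul_comm w v]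
    · rwa [mul_comm w v]
    · rwa [← sq]
  -- pass to `x = 1`
  obtain ⟨t, ht⟩ : ∃ t, y = x * t := ⟨y / x, by field_simp⟩
  obtain ⟨v, hv⟩ : ∃ v, z = x * v := ⟨z / x, by field_simp⟩
  have hv0 : v ≠ 0 := by
    rintro rfl
    exact hz (by rw [hv, mul_zero])
  rw [Fintype.linearIndependent_iff] at hS hT hcd
  have htF : t ∉ Set.range (algebraMap F K) := by
    rintro ⟨r, hr⟩
    have h1 := hT ![r, -1, 0] (by
      simp only [Fin.sum_univ_three, Matrix.cons_val_zero, Matrix.cons_val_one, Matrix.cons_val]
      rw [ht, ← hr, Algebra.smul_def, neg_smul, one_smul, zero_smul]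
      ring) 1
    simp at h1
  have hS' : ∀ a b c : F, algebraMap F K a * (t * v) + algebraMap F K b * v +
      algebraMap F K c * t = 0 → a = 0 ∧ b = 0 ∧ c = 0 := by
    intro a b c h
    have h1 := hS ![a, b, c] (by
      simp only [Fin.sum_univ_three, Matrix.cons_val_zero, Matrix.cons_val_one, Matrix.cons_val]
      rw [ht, hv]
      simp only [Algebra.smul_def]
      linear_combination x ^ 2 * h)
    exact ⟨h1 0, h1 1, h1 2⟩
  set A : Fin 2 → F[X] := ![C (c 4) + C (c 5) * X, C (d 4) + C (d 5) * X] with hA
  set B : Fin 2 → F[X] := ![C (c 1) + C (c 6) * X + C (c 3) * X ^ 2,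
    C (d 1) + C (d 6) * X + C (d 3) * X ^ 2] with hBB
  set E : Fin 2 → F[X] := ![C (c 0) + C (c 2) * X, C (d 0) + C (d 2) * X] with hE
  have dg1 : ∀ a b : F, (C a + C b * X).natDegree ≤ 1 := by
    intro a b
    compute_degree
  have dg2 : ∀ a b c : F, (C a + C b * X + C c * X ^ 2).natDegree ≤ 2 := by
    intro a b c
    compute_degree
  have hA1 : ∀ i, (A i).natDegree ≤ 1 := by
    intro i
    fin_cases i
    · exact dg1 _ _
    · exact dg1 _ _
  have hB1 : ∀ i, (B i).natDegree ≤ 2 := by
    intro i
    fin_cases i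
    · exact dg2 _ _ _
    · exact dg2 _ _ _
  have hE1 : ∀ i, (E i).natDegree ≤ 1 := by
    intro i
    fin_cases i
    · exact dg1 _ _
    · exact dg1 _ _
  have hrel : ∀ i, aeval t (A i) * v ^ 2 + aeval t (B i) * v + t * aeval t (E i) = 0 := by
    have hx3 : x ^ 3 ≠ 0 := pow_ne_zero _ hx
    rw [ht, hv] at hc hd
    simp only [Algebra.smul_def] at hc hd
    intro i
    fin_cases i
    · change aeval t (C (c 4) + C (c 5) * X) * v ^ 2 +
        aeval t (C (c 1) + C (c 6) * X + C (c 3) * X ^ 2) * v +
        t * aeval t (C (c 0) + C (c 2) * X) = 0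
      apply mul_left_cancel₀ hx3
      simp only [map_add, map_mul, aeval_C, aeval_X, map_pow]
      linear_combination hc
    · change aeval t (C (d 4) + C (d 5) * X) * v ^ 2 +
        aeval t (C (d 1) + C (d 6) * X + C (d 3) * X ^ 2) * v +
        t * aeval t (C (d 0) + C (d 2) * X) = 0
      apply mul_left_cancel₀ hx3
      simp only [map_add, map_mul, aeval_C, aeval_X, map_pow]
      linear_combination hd
  have hind : ∀ l m : F, C l * A 0 + C m * A 1 = 0 → C l * B 0 + C m * B 1 = 0 →
      C l * E 0 + C m * E 1 = 0 → l = 0 ∧ m = 0 := by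
    intro l m h1 h2 h3
    have cf : ∀ i, l * c i + m * d i = 0 := by
      simp only [hA, hBB, hE, Matrix.cons_val_zero, Matrix.cons_val_one] at h1 h2 h3
      have a0 := congrArg (fun p => Polynomial.coeff p 0) h1
      have a1 := congrArg (fun p => Polynomial.coeff p 1) h1
      have b0 := congrArg (fun p => Polynomial.coeff p 0) h2
      have b1 := congrArg (fun p => Polynomial.coeff p 1) h2
      have b2 := congrArg (fun p => Polynomial.coeff p 2) h2
      have c0 := congrArg (fun p => Polynomial.coeff p 0) h3
      have c1 := congrArg (fun p => Polynomial.coeff p 1) h3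
      simp [coeff_X, coeff_C, mul_coeff_zero, coeff_X_pow] at a0 a1 b0 b1 b2 c0 c1
      intro i
      fin_cases i
      · exact c0
      · exact b0
      · exact c1
      · exact b2
      · exact a0
      · exact a1
      · exact b1
    have h4 := hcd ![l, m] (by
      simp only [Fin.sum_univ_two, Matrix.cons_val_zero, Matrix.cons_val_one]
      funext i
      simpa using cf i)
    exact ⟨h4 0, h4 1⟩
  obtain ⟨a, b, c', h | h | h⟩ := tyi_core hB htF hv0 hS' hA1 hB1 hE1 hrel hind
  · refine fin z (by simp) ?_
    have : z ^ 2 = a • (y * z) + b • (x * z) + c' • (x * y) := by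
      rw [ht, hv]
      simp only [Algebra.smul_def]
      linear_combination x ^ 2 * h
    rw [this]
    exact Submodule.add_mem _ (Submodule.add_mem _
      (Submodule.smul_mem _ _ (Submodule.subset_span (by simp)))
      (Submodule.smul_mem _ _ (Submodule.subset_span (by simp))))
      (Submodule.smul_mem _ _ (Submodule.subset_span (by simp)))
  · refine fin x (by simp) ?_
    have : x ^ 2 = a • (y * z) + b • (x * z) + c' • (x * y) := by
      rw [ht, hv]
      simp only [Algebra.smul_def]
      linear_combination x ^ 2 * h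
    rw [this]
    exact Submodule.add_mem _ (Submodule.add_mem _
      (Submodule.smul_mem _ _ (Submodule.subset_span (by simp)))
      (Submodule.smul_mem _ _ (Submodule.subset_span (by simp))))
      (Submodule.smul_mem _ _ (Submodule.subset_span (by simp)))
  · refine fin y (by simp) ?_
    have : y ^ 2 = a • (y * z) + b • (x * z) + c' • (x * y) := by
      rw [ht, hv]
      simp only [Algebra.smul_def]
      linear_combination x ^ 2 * h
    rw [this]
    exact Submodule.add_mem _ (Submodule.add_mem _
      (Submodule.smul_mem _ _ (Submodule.subset_span (by simp)))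
      (Submodule.smul_mem _ _ (Submodule.subset_span (by simp))))
      (Submodule.smul_mem _ _ (Submodule.subset_span (by simp)))

end Pool.Agent.Helper74.CW
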