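import Pool.Agent.Helper74.CW.BIG

/-!
# Planes of the second type
-/

namespace Pool.Agent.Helper74.CW

open Module Polynomial

variable {F K : Type*} [Field F] [Field K] [Algebra F K]

private lemma tyii_aeval_one {t : K} {P : F[X]} (hP : P.natDegree ≤ 1) :
    aeval t P = algebraMap F K (P.coeff 0) + algebraMap F K (P.coeff 1) * t := by
  have h : P = C (P.coeff 1) * X + C (P.coeff 0) :=
    Polynomial.eq_X_add_C_of_natDegree_le_one hP
  conv_lhs => rw [h]
  simp only [map_add, map_mul, aeval_C, aeval_X]
  ring

private lemma tyii_aeval_two {t : K} {P : F[X]} (hP : P.natDegree ≤ 2) :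
    aeval t P = algebraMap F K (P.coeff 0) + algebraMap F K (P.coeff 1) * t +
      algebraMap F K (P.coeff 2) * t ^ 2 := by
  rw [Polynomial.aeval_eq_sum_range' (n := 3) (by omega)]
  simp only [Finset.sum_range_succ, Finset.range_zero, Finset.sum_empty, Algebra.smul_def]
  ring

private lemma tyii_gcd (e f : F[X]) : ∃ k h g : F[X], e = k * h ∧ f = k * g ∧ (e ≠ 0 → IsCoprime h g) := by
  classical
  let _ : GCDMonoid F[X] := EuclideanDomain.gcdMonoid F[X]
  obtain ⟨h, g, h1, h2, h3⟩ := extract_gcd e f
  exact ⟨_, h, g, h1, h2, fun _ => (gcd_isUnit_iff h g).1 h3⟩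

private lemma tyii_core (hB : Big F K) {t w : K} (ht : t ∉ Set.range (algebraMap F K))
    (hS : ∀ a b c : F, algebraMap F K a + algebraMap F K b * t +
      algebraMap F K c * (t * w) = 0 → a = 0 ∧ b = 0 ∧ c = 0)
    (hT : ∀ a b c : F, algebraMap F K a + algebraMap F K b * t +
      algebraMap F K c * w = 0 → a = 0 ∧ b = 0 ∧ c = 0)
    {κ : Fin 2 → F} {B E : Fin 2 → F[X]} (hBd : ∀ i, (B i).natDegree ≤ 2)
    (hE : ∀ i, (E i).natDegree ≤ 2)
    (hrel : ∀ i, algebraMap F K (κ i) * (t * w ^ 2) + aeval t (B i) * w + aeval t (E i) = 0)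
    (hind : ∀ l m : F, l * κ 0 + m * κ 1 = 0 → C l * B 0 + C m * B 1 = 0 →
      C l * E 0 + C m * E 1 = 0 → l = 0 ∧ m = 0) :
    ∃ a b c : F, (t ^ 2 = algebraMap F K a + algebraMap F K b * t +
      algebraMap F K c * (t * w)) ∨ (w = algebraMap F K a + algebraMap F K b * t +
      algebraMap F K c * (t * w)) := by
  have ht0 : t ≠ 0 := by
    rintro rfl
    exact ht ⟨0, map_zero _⟩
  have comb : ∀ l m : F, algebraMap F K (l * κ 0 + m * κ 1) * (t * w ^ 2) +
      aeval t (C l * B 0 + C m * B 1) * w + aeval t (C l * E 0 + C m * E 1) = 0 := by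
    intro l m
    simp only [map_add, map_mul, aeval_C]
    linear_combination algebraMap F K l * hrel 0 + algebraMap F K m * hrel 1
  have degB : ∀ l m : F, (C l * B 0 + C m * B 1).natDegree ≤ 2 := by
    intro l m
    refine le_trans (natDegree_add_le _ _) (max_le ?_ ?_)
    · exact le_trans (natDegree_C_mul_le _ _) (hBd 0)
    · exact le_trans (natDegree_C_mul_le _ _) (hBd 1)
  have degE : ∀ l m : F, (C l * E 0 + C m * E 1).natDegree ≤ 2 := by
    intro l m
    refine le_trans (natDegree_add_le _ _) (max_le ?_ ?_)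
    · exact le_trans (natDegree_C_mul_le _ _) (hE 0)
    · exact le_trans (natDegree_C_mul_le _ _) (hE 1)
  by_cases hκ : κ 0 = 0 ∧ κ 1 = 0
  · -- both relations are linear in `w`
    have r : ∀ i, aeval t (B i) * w + aeval t (E i) = 0 := by
      intro i
      have h1 := hrel i
      have h2 : κ i = 0 := by
        fin_cases i
        · exact hκ.1
        · exact hκ.2
      rw [h2, map_zero, zero_mul, zero_add] at h1
      exact h1
    have hcross : B 0 * E 1 = B 1 * E 0 := by
      rw [← sub_eq_zero]
      refine hB.poly ht ?_ ?_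
      · refine le_trans (natDegree_sub_le _ _) (max_le ?_ ?_)
        · have := hBd 0
          have := hE 1
          exact le_trans natDegree_mul_le (by omega)
        · have := hBd 1
          have := hE 0
          exact le_trans natDegree_mul_le (by omega)
      · simp only [map_sub, map_mul]
        linear_combination aeval t (B 0) * r 1 - aeval t (B 1) * r 0
    obtain ⟨g, p0, p1, hg0, hg1, hco⟩ := tyii_gcd (B 0) (B 1)
    have hB0 : B 0 ≠ 0 := by
      intro h
      have h1 := r 0
      rw [h, map_zero, zero_mul, zero_add] at h1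
      have h2 : E 0 = 0 := hB.poly ht (le_trans (hE 0) (by norm_num)) h1
      have h3 := hind 1 0 (by rw [hκ.1]; ring) (by rw [h]; simp) (by rw [h2]; simp)
      exact one_ne_zero h3.1
    have hB1 : B 1 ≠ 0 := by
      intro h
      have h1 := r 1
      rw [h, map_zero, zero_mul, zero_add] at h1
      have h2 : E 1 = 0 := hB.poly ht (le_trans (hE 1) (by norm_num)) h1
      have h3 := hind 0 1 (by rw [hκ.2]; ring) (by rw [h]; simp) (by rw [h2]; simp)
      exact one_ne_zero h3.2
    replace hco := hco hB0
    have hgn : g ≠ 0 := by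
      rintro rfl
      exact hB0 (by rw [hg0, zero_mul])
    have hp0 : p0 ≠ 0 := by
      rintro rfl
      exact hB0 (by rw [hg0, mul_zero])
    have hp1 : p1 ≠ 0 := by
      rintro rfl
      exact hB1 (by rw [hg1, mul_zero])
    have hc2 : p0 * E 1 = p1 * E 0 := by
      have : g * (p0 * E 1) = g * (p1 * E 0) := by
        rw [hg0, hg1] at hcross
        linear_combination hcross
      exact mul_left_cancel₀ hgn this
    obtain ⟨s, hs⟩ : p0 ∣ E 0 := hco.dvd_of_dvd_mul_left ⟨E 1, hc2.symm⟩
    have hs1 : E 1 = p1 * s := by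
      have : p0 * E 1 = p0 * (p1 * s) := by
        rw [hc2, hs]
        ring
      exact mul_left_cancel₀ hp0 this
    have hrel2 : aeval t g * w + aeval t s = 0 := by
      have h1 := r 0
      rw [hg0, hs] at h1
      simp only [map_mul] at h1
      have h2 : aeval t p0 ≠ 0 := by
        intro h
        refine hp0 (hB.poly ht ?_ h)
        have h3 := hBd 0
        rw [hg0, natDegree_mul hgn hp0] at h3
        omega
      have : aeval t p0 * (aeval t g * w + aeval t s) = 0 := by
        linear_combination h1
      exact (mul_eq_zero.1 this).resolve_left h2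
    have hdeg : 1 ≤ p0.natDegree ∨ 1 ≤ p1.natDegree := by
      by_contra hcon
      push Not at hcon
      obtain ⟨a, ha⟩ : ∃ a, p0 = C a := ⟨_, eq_C_of_natDegree_le_zero (by omega)⟩
      obtain ⟨b, hb⟩ : ∃ b, p1 = C b := ⟨_, eq_C_of_natDegree_le_zero (by omega)⟩
      have h1 := hind b (-a) (by rw [hκ.1, hκ.2]; ring)
        (by rw [hg0, hg1, ha, hb, map_neg]; ring) (by rw [hs, hs1, ha, hb, map_neg]; ring)
      exact hp1 (by rw [hb, h1.1, map_zero])
    have hgd : g.natDegree ≤ 1 := by
      have h3 := hBd 0
      have h4 := hBd 1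
      rw [hg0, natDegree_mul hgn hp0] at h3
      rw [hg1, natDegree_mul hgn hp1] at h4
      omega
    have hsd : s.natDegree ≤ 1 := by
      by_cases hs0 : s = 0
      · rw [hs0]
        simp
      have h3 := hE 0
      have h4 := hE 1
      rw [hs, natDegree_mul hp0 hs0] at h3
      rw [hs1, natDegree_mul hp1 hs0] at h4
      omega
    rw [tyii_aeval_one hgd, tyii_aeval_one hsd] at hrel2
    have hg00 : g.coeff 0 ≠ 0 := by
      intro h
      rw [h, map_zero, zero_add] at hrel2
      have h1 := hS (s.coeff 0) (s.coeff 1) (g.coeff 1) (by linear_combination hrel2)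
      apply hgn
      rw [eq_X_add_C_of_natDegree_le_one hgd, h, h1.2.2]
      simp
    have hm2 : algebraMap F K (g.coeff 0) ≠ 0 := by
      rw [Ne, map_eq_zero]
      exact hg00
    refine ⟨-(s.coeff 0 / g.coeff 0), -(s.coeff 1 / g.coeff 0), -(g.coeff 1 / g.coeff 0),
      Or.inr ?_⟩
    simp only [map_neg, map_div₀]
    field_simp
    linear_combination hrel2
  · -- one relation is quadratic
    obtain ⟨i, hi⟩ : ∃ i, κ i ≠ 0 := by
      by_contra hcon
      push Not at hcon
      exact hκ ⟨hcon 0, hcon 1⟩
    set b := C (κ 1) * B 0 + C (-κ 0) * B 1 with hb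
    set e := C (κ 1) * E 0 + C (-κ 0) * E 1 with he
    have hbd : b.natDegree ≤ 2 := degB _ _
    have hed : e.natDegree ≤ 2 := degE _ _
    have r1 : aeval t b * w + aeval t e = 0 := by
      have h1 := comb (κ 1) (-κ 0)
      have h2 : κ 1 * κ 0 + -κ 0 * κ 1 = 0 := by ring
      rw [h2, map_zero, zero_mul, zero_add] at h1
      exact h1
    have hb0 : b ≠ 0 := by
      intro h
      rw [h, map_zero, zero_mul, zero_add] at r1
      have h2 : e = 0 := hB.poly ht (le_trans hed (by norm_num)) r1
      have h3 := hind (κ 1) (-κ 0) (by ring) h h2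
      exact hκ ⟨by simpa using h3.2, h3.1⟩
    have hid : C (κ i) * X * e ^ 2 = b * (B i * e - E i * b) := by
      rw [← sub_eq_zero]
      have hBi := hBd i
      have hEi := hE i
      refine hB.poly ht ?_ ?_
      · refine le_trans (natDegree_sub_le _ _) (max_le ?_ ?_)
        · refine le_trans natDegree_mul_le ?_
          have h1 := natDegree_pow_le (p := e) (n := 2)
          have h2 : (C (κ i) * (X : F[X])).natDegree ≤ 1 := by compute_degree
          omega
        · refine le_trans natDegree_mul_le ?_
          have h1 : (B i * e - E i * b).natDegree ≤ 4 := by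
            refine le_trans (natDegree_sub_le _ _) (max_le ?_ ?_)
            · exact le_trans natDegree_mul_le (by omega)
            · exact le_trans natDegree_mul_le (by omega)
          omega
      · simp only [map_sub, map_mul, map_pow, aeval_X, aeval_C]
        linear_combination aeval t b ^ 2 * hrel i - (aeval t b * aeval t (B i)) * r1 -
          algebraMap F K (κ i) * t * (aeval t b * w - aeval t e) * r1
    obtain ⟨k, b', e', hk, hk', hco⟩ := tyii_gcd b e
    replace hco := hco hb0
    have hkn : k ≠ 0 := by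
      rintro rfl
      exact hb0 (by rw [hk, zero_mul])
    have hb'n : b' ≠ 0 := by
      rintro rfl
      exact hb0 (by rw [hk, mul_zero])
    have hid2 : C (κ i) * X * e' ^ 2 = b' * (B i * e' - E i * b') := by
      have : k ^ 2 * (C (κ i) * X * e' ^ 2) = k ^ 2 * (b' * (B i * e' - E i * b')) := by
        rw [hk, hk'] at hid
        linear_combination hid
      exact mul_left_cancel₀ (pow_ne_zero 2 hkn) this
    have hrel2 : aeval t b' * w + aeval t e' = 0 := by
      rw [hk, hk'] at r1
      simp only [map_mul] at r1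
      have h5 : aeval t k ≠ 0 := by
        intro h0
        refine hkn (hB.poly ht ?_ h0)
        rw [hk, natDegree_mul hkn hb'n] at hbd
        omega
      have : aeval t k * (aeval t b' * w + aeval t e') = 0 := by
        linear_combination r1
      exact (mul_eq_zero.1 this).resolve_left h5
    have he'd : e'.natDegree ≤ 2 := by
      by_cases h0 : e' = 0
      · rw [h0]
        simp
      rw [hk', natDegree_mul hkn h0] at hed
      omega
    have hbX : b' ∣ X := by
      have h1 : b' ∣ C (κ i) * X * e' ^ 2 := ⟨_, hid2⟩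
      have h2 : b' ∣ C (κ i) * X := (hco.pow_right : IsCoprime b' (e' ^ 2)).dvd_of_dvd_mul_right h1
      have h3 : (X : F[X]) = C (κ i)⁻¹ * (C (κ i) * X) := by
        rw [← mul_assoc, ← C_mul, inv_mul_cancel₀ hi, C_1, one_mul]
      rw [h3]
      exact Dvd.dvd.mul_left h2 _
    have hb'd : b'.natDegree ≤ 1 := by
      have := natDegree_le_of_dvd hbX X_ne_zero
      rwa [natDegree_X] at this
    rw [tyii_aeval_one hb'd, tyii_aeval_two he'd] at hrel2
    obtain ⟨qq, hqq⟩ := hbX
    have hqn : qq ≠ 0 := by
      rintro rfl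
      rw [mul_zero] at hqq
      exact X_ne_zero hqq
    have hqd : b'.natDegree + qq.natDegree = 1 := by
      rw [← natDegree_mul hb'n hqn, ← hqq, natDegree_X]
    rcases Nat.lt_or_ge b'.natDegree 1 with hlt | hge
    · -- `b'` constant
      exfalso
      have hb1 : b'.coeff 1 = 0 := coeff_eq_zero_of_natDegree_lt hlt
      rw [hb1, map_zero, zero_mul, add_zero] at hrel2
      have hb0' : b' = C (b'.coeff 0) := eq_C_of_natDegree_le_zero (by omega)
      have hbc : b'.coeff 0 ≠ 0 := by
        intro h
        exact hb'n (by rw [hb0', h, map_zero])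
      have he2 : e'.coeff 2 ≠ 0 := by
        intro h
        rw [h, map_zero, zero_mul, add_zero] at hrel2
        have h1 := hT (e'.coeff 0) (e'.coeff 1) (b'.coeff 0) (by linear_combination hrel2)
        exact hbc h1.2.2
      have h5 := congrArg (fun p => Polynomial.coeff p 5) hid2
      have h6 : (b' * (B i * e' - E i * b')).coeff 5 = 0 := by
        refine coeff_eq_zero_of_natDegree_lt (lt_of_le_of_lt natDegree_mul_le ?_)
        have hBi := hBd i
        have hEi := hE i
        have h1 : (B i * e' - E i * b').natDegree ≤ 4 := by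
          refine le_trans (natDegree_sub_le _ _) (max_le ?_ ?_)
          · exact le_trans natDegree_mul_le (by omega)
          · exact le_trans natDegree_mul_le (by omega)
        omega
      have h7 : (C (κ i) * X * e' ^ 2).coeff 5 = κ i * (e'.coeff 2 * e'.coeff 2) := by
        rw [mul_assoc, coeff_C_mul, coeff_X_mul, sq]
        congr 1
        exact coeff_mul_add_eq_of_natDegree_le he'd he'd
      change (C (κ i) * X * e' ^ 2).coeff 5 = (b' * (B i * e' - E i * b')).coeff 5 at h5
      rw [h6, h7] at h5
      exact mul_ne_zero hi (mul_ne_zero he2 he2) h5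
    · -- `b'` is a multiple of `X`
      have hq0 : qq = C (qq.coeff 0) := eq_C_of_natDegree_le_zero (by omega)
      have hb0' : b'.coeff 0 = 0 := by
        have h1 := congrArg (fun p => Polynomial.coeff p 0) hqq
        simp only [coeff_X_zero, mul_coeff_zero] at h1
        rcases mul_eq_zero.1 h1.symm with h2 | h2
        · exact h2
        · exfalso
          exact hqn (by rw [hq0, h2, map_zero])
      rw [hb0', map_zero, zero_add] at hrel2
      have hb1' : b'.coeff 1 ≠ 0 := by
        intro h
        apply hb'n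
        rw [eq_X_add_C_of_natDegree_le_one hb'd, hb0', h]
        simp
      have he2 : e'.coeff 2 ≠ 0 := by
        intro h
        rw [h, map_zero, zero_mul, add_zero] at hrel2
        have h1 := hS (e'.coeff 0) (e'.coeff 1) (b'.coeff 1) (by linear_combination hrel2)
        exact hb1' h1.2.2
      have hm2 : algebraMap F K (e'.coeff 2) ≠ 0 := by
        rw [Ne, map_eq_zero]
        exact he2
      refine ⟨-(e'.coeff 0 / e'.coeff 2), -(e'.coeff 1 / e'.coeff 2),
        -(b'.coeff 1 / e'.coeff 2), Or.inl ?_⟩
      simp only [map_neg, map_div₀]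
      field_simp
      linear_combination hrel2

private lemma tyii_sc {ξ : K} {T : Submodule F K} (hξ : ξ ≠ 0) :
    finrank F (sc ξ T) = finrank F T := by
  have h3 : Function.Injective (LinearMap.mulLeft F ξ) := by
    intro x y hxy
    simp only [LinearMap.mulLeft_apply] at hxy
    exact mul_left_cancel₀ hξ hxy
  unfold sc
  exact (LinearEquiv.finrank_eq (Submodule.equivMapOfInjective _ h3 _)).symm

private lemma tyii_span (x y z : K) : Submodule.span F (Set.range ![x, y, z]) =
    Submodule.span F {x, y, z} := by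
  congr 1
  ext w
  simp only [Set.mem_range, Fin.exists_fin_succ, Set.mem_insert_iff, Set.mem_singleton_iff]
  simp
  tauto

theorem type_two (hB : Big F K) {x y z : K} (hT : LinearIndependent F ![x, y, z])
    (hS : LinearIndependent F ![x ^ 2, x * z, y * z]) {c d : Fin 7 → F}
    (hcd : LinearIndependent F ![c, d])
    (hc : c 0 • x ^ 3 + c 1 • (x ^ 2 * y) + c 2 • (x ^ 2 * z) + c 3 • (x * y * z) +
      c 4 • (x * z ^ 2) + c 5 • (y ^ 2 * z) + c 6 • (y * z ^ 2) = 0)
    (hd : d 0 • x ^ 3 + d 1 • (x ^ 2 * y) + d 2 • (x ^ 2 * z) + d 3 • (x * y * z) +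
      d 4 • (x * z ^ 2) + d 5 • (y ^ 2 * z) + d 6 • (y * z ^ 2) = 0) :
    Sim (Submodule.span F {x ^ 2, x * z, y * z}) (Submodule.span F {x, y, z}) := by
  have hx : x ≠ 0 := by simpa using hT.ne_zero 0
  have hy : y ≠ 0 := by simpa using hT.ne_zero 1
  have hz : z ≠ 0 := by simpa using hT.ne_zero 2
  have hfS : finrank F (Submodule.span F {x ^ 2, x * z, y * z}) = 3 := by
    rw [← tyii_span, finrank_span_eq_card hS]
    simp
  have hfT : finrank F (Submodule.span F {x, y, z}) = 3 := by
    rw [← tyii_span, finrank_span_eq_card hT]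
    simp
  have hfin : FiniteDimensional F (Submodule.span F {x ^ 2, x * z, y * z}) :=
    FiniteDimensional.of_finrank_pos (by omega)
  have e1 : x ^ 2 ∈ Submodule.span F {x ^ 2, x * z, y * z} := Submodule.subset_span (by simp)
  have e2 : x * z ∈ Submodule.span F {x ^ 2, x * z, y * z} := Submodule.subset_span (by simp)
  have e3 : y * z ∈ Submodule.span F {x ^ 2, x * z, y * z} := Submodule.subset_span (by simp)
  have fin : ∀ w : K, w ≠ 0 → (∀ v ∈ ({x, y, z} : Set K), w * v ∈
      Submodule.span F {x ^ 2, x * z, y * z}) →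
      Sim (Submodule.span F {x ^ 2, x * z, y * z}) (Submodule.span F {x, y, z}) := by
    intro w hw0 hw
    refine ⟨w, hw0, ?_⟩
    symm
    refine Submodule.eq_of_le_of_finrank_eq ?_ (by rw [tyii_sc hw0, hfS, hfT])
    unfold sc
    rw [Submodule.map_span_le]
    intro v hv
    rw [LinearMap.mulLeft_apply]
    exact hw v hv
  -- pass to `x = 1`
  obtain ⟨w, hw⟩ : ∃ w, y = x * w := ⟨y / x, by field_simp⟩
  obtain ⟨t, ht⟩ : ∃ t, z = x * t := ⟨z / x, by field_simp⟩
  rw [Fintype.linearIndependent_iff] at hS hT hcd
  have htF : t ∉ Set.range (algebraMap F K) := by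
    rintro ⟨r, hr⟩
    have h1 := hT ![r, 0, -1] (by
      simp only [Fin.sum_univ_three, Matrix.cons_val_zero, Matrix.cons_val_one, Matrix.cons_val]
      rw [ht, ← hr, Algebra.smul_def, neg_smul, one_smul, zero_smul]
      ring) 2
    simp at h1
  have hS' : ∀ a b c : F, algebraMap F K a + algebraMap F K b * t +
      algebraMap F K c * (t * w) = 0 → a = 0 ∧ b = 0 ∧ c = 0 := by
    intro a b c h
    have h1 := hS ![a, b, c] (by
      simp only [Fin.sum_univ_three, Matrix.cons_val_zero, Matrix.cons_val_one, Matrix.cons_val]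
      rw [ht, hw]
      simp only [Algebra.smul_def]
      linear_combination x ^ 2 * h)
    exact ⟨h1 0, h1 1, h1 2⟩
  have hT' : ∀ a b c : F, algebraMap F K a + algebraMap F K b * t +
      algebraMap F K c * w = 0 → a = 0 ∧ b = 0 ∧ c = 0 := by
    intro a b c h
    have h1 := hT ![a, c, b] (by
      simp only [Fin.sum_univ_three, Matrix.cons_val_zero, Matrix.cons_val_one, Matrix.cons_val]
      rw [ht, hw]
      simp only [Algebra.smul_def]
      linear_combination x * h)
    exact ⟨h1 0, h1 2, h1 1⟩
  set κ : Fin 2 → F := ![c 5, d 5] with hκ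
  set B : Fin 2 → F[X] := ![C (c 1) + C (c 3) * X + C (c 6) * X ^ 2,
    C (d 1) + C (d 3) * X + C (d 6) * X ^ 2] with hBB
  set E : Fin 2 → F[X] := ![C (c 0) + C (c 2) * X + C (c 4) * X ^ 2,
    C (d 0) + C (d 2) * X + C (d 4) * X ^ 2] with hE
  have dg2 : ∀ a b c : F, (C a + C b * X + C c * X ^ 2).natDegree ≤ 2 := by
    intro a b c
    compute_degree
  have hB1 : ∀ i, (B i).natDegree ≤ 2 := by
    intro i
    fin_cases i
    · exact dg2 _ _ _
    · exact dg2 _ _ _
  have hE1 : ∀ i, (E i).natDegree ≤ 2 := by
    intro i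
    fin_cases i
    · exact dg2 _ _ _
    · exact dg2 _ _ _
  have hrel : ∀ i, algebraMap F K (κ i) * (t * w ^ 2) + aeval t (B i) * w +
      aeval t (E i) = 0 := by
    have hx3 : x ^ 3 ≠ 0 := pow_ne_zero _ hx
    rw [ht, hw] at hc hd
    simp only [Algebra.smul_def] at hc hd
    intro i
    fin_cases i
    · change algebraMap F K (c 5) * (t * w ^ 2) +
        aeval t (C (c 1) + C (c 3) * X + C (c 6) * X ^ 2) * w +
        aeval t (C (c 0) + C (c 2) * X + C (c 4) * X ^ 2) = 0
      apply mul_left_cancel₀ hx3
      simp only [map_add, map_mul, aeval_C, aeval_X, map_pow]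
      linear_combination hc
    · change algebraMap F K (d 5) * (t * w ^ 2) +
        aeval t (C (d 1) + C (d 3) * X + C (d 6) * X ^ 2) * w +
        aeval t (C (d 0) + C (d 2) * X + C (d 4) * X ^ 2) = 0
      apply mul_left_cancel₀ hx3
      simp only [map_add, map_mul, aeval_C, aeval_X, map_pow]
      linear_combination hd
  have hind : ∀ l m : F, l * κ 0 + m * κ 1 = 0 → C l * B 0 + C m * B 1 = 0 →
      C l * E 0 + C m * E 1 = 0 → l = 0 ∧ m = 0 := by
    intro l m h1 h2 h3
    have cf : ∀ i, l * c i + m * d i = 0 := by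
      simp only [hκ, hBB, hE, Matrix.cons_val_zero, Matrix.cons_val_one] at h1 h2 h3
      have b0 := congrArg (fun p => Polynomial.coeff p 0) h2
      have b1 := congrArg (fun p => Polynomial.coeff p 1) h2
      have b2 := congrArg (fun p => Polynomial.coeff p 2) h2
      have c0 := congrArg (fun p => Polynomial.coeff p 0) h3
      have c1 := congrArg (fun p => Polynomial.coeff p 1) h3
      have c2 := congrArg (fun p => Polynomial.coeff p 2) h3
      simp [coeff_X, coeff_C, mul_coeff_zero, coeff_X_pow] at b0 b1 b2 c0 c1 c2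
      intro i
      fin_cases i
      · exact c0
      · exact b0
      · exact c1
      · exact b1
      · exact c2
      · exact h1
      · exact b2
    have h4 := hcd ![l, m] (by
      simp only [Fin.sum_univ_two, Matrix.cons_val_zero, Matrix.cons_val_one]
      funext i
      simpa using cf i)
    exact ⟨h4 0, h4 1⟩
  obtain ⟨a, b, c', h | h⟩ := tyii_core hB htF hS' hT' hB1 hE1 hrel hind
  · refine fin z hz ?_
    have h5 : z * z = a • x ^ 2 + b • (x * z) + c' • (y * z) := by
      rw [ht, hw]
      simp only [Algebra.smul_def]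
      linear_combination x ^ 2 * h
    intro v hv
    simp only [Set.mem_insert_iff, Set.mem_singleton_iff] at hv
    rcases hv with h6 | h6 | h6
    · rw [h6, mul_comm z x]
      exact e2
    · rw [h6, mul_comm z y]
      exact e3
    · rw [h6, h5]
      exact Submodule.add_mem _ (Submodule.add_mem _ (Submodule.smul_mem _ _ e1)
        (Submodule.smul_mem _ _ e2)) (Submodule.smul_mem _ _ e3)
  · refine fin x hx ?_
    have h5 : x * y = a • x ^ 2 + b • (x * z) + c' • (y * z) := by
      rw [ht, hw]
      simp only [Algebra.smul_def]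
      linear_combination x ^ 2 * h
    intro v hv
    simp only [Set.mem_insert_iff, Set.mem_singleton_iff] at hv
    rcases hv with h6 | h6 | h6
    · rw [h6, ← sq]
      exact e1
    · rw [h6, h5]
      exact Submodule.add_mem _ (Submodule.add_mem _ (Submodule.smul_mem _ _ e1)
        (Submodule.smul_mem _ _ e2)) (Submodule.smul_mem _ _ e3)
    · rw [h6]
      exact e2

end Pool.Agent.Helper74.CW
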