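import Mathlib

/-!
# Linear sets on the projective line with complementary weights: definitions

Only definitions.
-/

namespace Pool.Agent.Helper74.CW

open Module Polynomial

section Defs

variable {F K : Type*} [Field F] [Field K] [Algebra F K]

/-- The weight of a point `P` of `PG(1, K)` with respect to the `F`-subspace `U` of `K × K`. -/
noncomputable def wt (U : Submodule F (K × K)) (P : Projectivization K (K × K)) : ℕ :=
  finrank F ↥(U ⊓ P.submodule.restrictScalars F)

/-- The number of points of `PG(1, K)` of weight `i` with respect to `U`. -/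
noncomputable def Nw (U : Submodule F (K × K)) (i : ℕ) : ℕ :=
  Nat.card {P : Projectivization K (K × K) // wt U P = i}

/-- `ξ T` -/
def sc (ξ : K) (T : Submodule F K) : Submodule F K := T.map (LinearMap.mulLeft F ξ)

/-- The number of `ξ ≠ 0` with `dim (S ∩ ξ T) = i`. -/
noncomputable def inn (S T : Submodule F K) (i : ℕ) : ℕ :=
  Nat.card {ξ : K // ξ ≠ 0 ∧ finrank F ↥(S ⊓ sc ξ T) = i}

/-- The subspace of all `ξ` with `ξ T ⊆ S`. -/
def colon (S T : Submodule F K) : Submodule F K where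
  carrier := {ξ | ∀ t ∈ T, ξ * t ∈ S}
  add_mem' := by
    intro a b ha hb t ht
    rw [add_mul]
    exact S.add_mem (ha t ht) (hb t ht)
  zero_mem' := by
    intro t _
    rw [zero_mul]
    exact S.zero_mem
  smul_mem' := by
    intro c a ha t ht
    rw [smul_mul_assoc]
    exact S.smul_mem c (ha t ht)

/-- `S = ξ T` for some `ξ ≠ 0`. -/
def Sim (S T : Submodule F K) : Prop := ∃ ξ : K, ξ ≠ 0 ∧ S = sc ξ T

/-- `S = w ⟨1, a, a ^ 2⟩` -/
def Con (S : Submodule F K) : Prop := ∃ w a : K, w ≠ 0 ∧ a ∉ Set.range (algebraMap F K) ∧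
  S = sc w (Submodule.span F {1, a, a ^ 2})

variable (F) in
/-- The kernel of the multiplication map. -/
def NN (t s : Fin 3 → K) : Submodule F (Matrix (Fin 3) (Fin 3) F) where
  carrier := {X | ∑ i, ∑ j, X i j • (t i * s j) = 0}
  add_mem' := by
    intro X Y hX hY
    simp only [Set.mem_ofPred_eq] at hX hY ⊢
    simp only [Matrix.add_apply, add_smul, Finset.sum_add_distrib, hX, hY, add_zero]
  zero_mem' := by simp
  smul_mem' := by
    intro c X hX
    simp only [Set.mem_ofPred_eq] at hX ⊢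
    simp only [Matrix.smul_apply, smul_assoc, ← Finset.smul_sum, hX, smul_zero]

/-- the number of nonzero singular matrices in a space of matrices -/
noncomputable def sing (N : Submodule F (Matrix (Fin 3) (Fin 3) F)) : ℕ :=
  Nat.card {X : Matrix (Fin 3) (Fin 3) F // X ∈ N ∧ X ≠ 0 ∧ X.det = 0}

variable (F K) in
/-- No element of `K` has degree `2, ..., 6` over `F`. -/
def Big : Prop := ∀ (a : K) (f : F[X]), f ≠ 0 → f.natDegree ≤ 6 → aeval a f = 0 →
  a ∈ Set.range (algebraMap F K)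

/-- The number of nonzero zeros in `F ^ 3` of a form in three variables. -/
noncomputable def zeros (C : MvPolynomial (Fin 3) F) : ℕ :=
  Nat.card {v : Fin 3 → F // v ≠ 0 ∧ MvPolynomial.eval v C = 0}

variable (K) in
/-- `C` is an irreducible cubic form over `F` with a zero in `K ^ 3` whose coordinates are linearly
independent over `F`. -/
def Cub (C : MvPolynomial (Fin 3) F) : Prop := C.IsHomogeneous 3 ∧ Irreducible C ∧
  ∃ u : Fin 3 → K, LinearIndependent F u ∧ MvPolynomial.aeval u C = 0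

variable (F K) in
/-- `m` is the number of `ξ ≠ 0` with `dim (S ∩ ξ T) = 2`, for two subspaces `S`, `T` of dimension `3`
with `S ≠ ξ T` for all `ξ`. -/
def Real33 (m : ℕ) : Prop := ∃ S T : Submodule F K, finrank F S = 3 ∧ finrank F T = 3 ∧ ¬ Sim S T ∧
  inn S T 2 = m

/-! ### the explicit distributions -/

/-- `dim T = 0` -/
def e0 (q n i : ℕ) : ℕ := if i = 0 then q ^ n - 1 else 0

/-- `dim T = 1`, `dim S = s` -/
def e1 (q n s i : ℕ) : ℕ := if i = 0 then q ^ n - q ^ s else if i = 1 then q ^ s - 1 else 0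

/-- `dim T = 2`, `dim S = s` -/
def e2 (q n s j i : ℕ) : ℕ :=
  if i = 0 then q ^ n - 1 - (q + 1) * (q ^ s - q ^ j) - (q ^ j - 1)
  else if i = 1 then (q + 1) * (q ^ s - q ^ j) else if i = 2 then q ^ j - 1 else 0

/-- `dim T = dim S = 3` -/
def e3 (q n b m i : ℕ) : ℕ :=
  if i = 0 then q ^ n - 1 - ((q ^ 3 - 1) * (q ^ 2 + q + 1) - (q ^ 2 - 1) * m - (q ^ 3 - 1) * b) -
    (q - 1) * m - (q - 1) * b
  else if i = 1 then (q ^ 3 - 1) * (q ^ 2 + q + 1) - (q ^ 2 - 1) * m - (q ^ 3 - 1) * b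
  else if i = 2 then (q - 1) * m else if i = 3 then (q - 1) * b else 0

variable (F K) in
/-- The numbers `m` such that `(q - 1) m` is the number of `ξ ≠ 0` with `dim (S ∩ ξ T) = 2` for planes
`S`, `T` with `S ≠ ξ T` for all `ξ`: all `m ≤ 2 q + 2` if `q ≤ 3`, and otherwise eight small values and the
numbers of points of the plane cubics `C` with `Cub K C`. -/
def M33 (m : ℕ) : Prop := m ≤ 2 * Nat.card F + 2 ∧ (Nat.card F ≤ 3 ∨
  m ∈ ({0, 1, 2, 3, Nat.card F + 1, 2 * Nat.card F, 2 * Nat.card F + 1, 2 * Nat.card F + 2} :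
    Finset ℕ) ∨
  ∃ C : MvPolynomial (Fin 3) F, Cub K C ∧ zeros C = (Nat.card F - 1) * m)

variable (F K) in
/-- The list of the functions `i ↦` number of `ξ ≠ 0` with `dim (S ∩ ξ T) = i`, for `dim S = s` and
`dim T = c`, where `c ≤ 2`, or `s = c = 3` and the degree `[K : F] > 1` is prime to `30`. -/
def Inner (s c : ℕ) (e : ℕ → ℕ) : Prop :=
  (c = 0 ∧ e = e0 (Nat.card F) (finrank F K)) ∨
  (c = 1 ∧ e = e1 (Nat.card F) (finrank F K) s) ∨
  (c = 2 ∧ ∃ j, 2 * s ≤ finrank F K + j ∧ (j < s ∨ (j = s ∧ ¬ Nat.Coprime (finrank F K) s)) ∧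
    e = e2 (Nat.card F) (finrank F K) s j) ∨
  (c = 3 ∧ s = 3 ∧ finrank F K ≠ 1 ∧ Nat.Coprime (finrank F K) 30 ∧ ∃ b m, ((b = 1 ∧ (m = 0 ∨ m = Nat.card F ^ 2 + Nat.card F)) ∨
    (b = 0 ∧ M33 F K m)) ∧ e = e3 (Nat.card F) (finrank F K) b m)

variable (F K) in
/-- The list of the weight distributions for `dim S = s` and `dim T = r`. -/
def Tup (s r : ℕ) (N : ℕ → ℕ) : Prop :=
  (∃ e, Inner F K s r e ∧ ∀ i, 1 ≤ i → i ≤ s + r →
    N i = e i + (if s = i then 1 else 0) + (if r = i then 1 else 0)) ∨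
  (finrank F K ≤ s + r ∧ ∃ e, Inner F K (finrank F K - r) (finrank F K - s) e ∧
    ∀ i, 1 ≤ i → i ≤ s + r →
      N i = (if s + r ≤ i + finrank F K then e (i + finrank F K - (s + r)) else 0) +
        (if s = i then 1 else 0) + (if r = i then 1 else 0))

variable (F K) in
/-- `N` is the weight distribution of `L_{S x T}` with `dim S = s` and `dim T = r`. -/
def OccR (s r : ℕ) (N : ℕ → ℕ) : Prop := ∃ S T : Submodule F K, finrank F S = s ∧
  finrank F T = r ∧ ∀ i, 1 ≤ i → i ≤ s + r → Nw (S.prod T) i = N i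

variable (F K) in
/-- `N` is the weight distribution of some `L_{S x T}` of rank `k` with complementary weights. -/
def Occ (k : ℕ) (N : ℕ → ℕ) : Prop := ∃ S T : Submodule F K, finrank F S + finrank F T = k ∧
  1 ≤ finrank F T ∧ finrank F T ≤ finrank F S ∧ ∀ i, 1 ≤ i → i ≤ k → Nw (S.prod T) i = N i

end Defs

end Pool.Agent.Helper74.CW
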