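import Pool.Agent.Helper74.CW.Defs

/-!
# No element of degree 2, ..., 6
-/

namespace Pool.Agent.Helper74.CW

open Module Polynomial

variable {F K : Type*} [Field F] [Field K] [Algebra F K]

theorem Big_of [FiniteDimensional F K] (h : Nat.Coprime (finrank F K) 30) : Big F K := by
  intro a f hf hdeg hfa
  have hint : IsIntegral F a := IsIntegral.of_finite F a
  have h1 : (minpoly F a).natDegree ≤ 6 := by
    refine le_trans (Polynomial.natDegree_le_of_dvd (minpoly.dvd F a hfa) hf) hdeg
  have h2 : (minpoly F a).natDegree ∣ finrank F K := minpoly.degree_dvd hint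
  have h3 : 0 < (minpoly F a).natDegree := minpoly.natDegree_pos hint
  have h4 : Nat.Coprime (minpoly F a).natDegree 30 := Nat.Coprime.coprime_dvd_left h2 h
  have h5 : (minpoly F a).natDegree = 1 := by
    interval_cases (minpoly F a).natDegree <;> first | rfl | (exfalso; revert h4; decide)
  exact (minpoly.natDegree_eq_one_iff).1 h5

theorem exists_notin [FiniteDimensional F K] (h : finrank F K ≠ 1) :
    ∃ a : K, a ∉ Set.range (algebraMap F K) := by
  by_contra hcon
  push Not at hcon
  apply h
  have h1 : (⊤ : Submodule F K) = Submodule.span F {1} := by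
    symm
    rw [eq_top_iff]
    intro x _
    obtain ⟨c, rfl⟩ := hcon x
    rw [Submodule.mem_span_singleton]
    exact ⟨c, by rw [Algebra.smul_def, mul_one]⟩
  rw [← finrank_top F K, h1, finrank_span_singleton one_ne_zero]

/-- polynomials of degree at most `6` -/
theorem Big.poly (hB : Big F K) {a : K} (ha : a ∉ Set.range (algebraMap F K)) {f : F[X]}
    (hf : f.natDegree ≤ 6) (h0 : aeval a f = 0) : f = 0 := by
  by_contra h
  exact ha (hB a f h hf h0)

theorem Big.pow (hB : Big F K) {a : K} (ha : a ∉ Set.range (algebraMap F K)) :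
    LinearIndependent F (fun i : Fin 7 => a ^ (i : ℕ)) := by
  rw [Fintype.linearIndependent_iff]
  intro g hg
  have h1 : aeval a (∑ i : Fin 7, C (g i) * (X : F[X]) ^ (i : ℕ)) = 0 := by
    rw [← hg, map_sum]
    refine Finset.sum_congr rfl fun i _ => ?_
    rw [map_mul, map_pow, aeval_X, aeval_C, Algebra.smul_def]
  have h2 := hB.poly ha (f := ∑ i : Fin 7, C (g i) * (X : F[X]) ^ (i : ℕ)) ?_ h1
  · intro i
    have h3 := congrArg (fun p => Polynomial.coeff p (i : ℕ)) h2
    simp only [Polynomial.finsetSum_coeff, Polynomial.coeff_C_mul, Polynomial.coeff_X_pow,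
      Polynomial.coeff_zero] at h3
    rw [Finset.sum_eq_single i] at h3
    · simpa using h3
    · intro j _ hj
      rw [if_neg (fun h => hj (Fin.ext h.symm)), mul_zero]
    · intro h
      exact absurd (Finset.mem_univ i) h
  · refine Polynomial.natDegree_sum_le_of_forall_le _ _ fun i _ => ?_
    refine le_trans (Polynomial.natDegree_C_mul_X_pow_le _ _) ?_
    have := i.2
    omega

theorem Big.con_finrank (hB : Big F K) {S : Submodule F K} (h : Con S) : finrank F S = 3 := by
  obtain ⟨w, a, hw, ha, rfl⟩ := h
  have h1 : LinearIndependent F (fun i : Fin 3 => a ^ (i : ℕ)) :=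
    (hB.pow ha).comp (Fin.castLE (by norm_num : 3 ≤ 7)) (Fin.castLE_injective _)
  have h2 : Submodule.span F {1, a, a ^ 2} =
      Submodule.span F (Set.range (fun i : Fin 3 => a ^ (i : ℕ))) := by
    congr 1
    ext x
    simp only [Set.mem_insert_iff, Set.mem_singleton_iff, Set.mem_range, Fin.exists_fin_succ,
      Fin.val_zero, pow_zero, Fin.val_succ, IsEmpty.exists_iff, or_false]
    constructor
    · rintro (rfl | rfl | rfl)
      · exact Or.inl rfl
      · exact Or.inr (Or.inl (by simp))
      · exact Or.inr (Or.inr (by simp))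
    · rintro (rfl | rfl | rfl)
      · exact Or.inl rfl
      · exact Or.inr (Or.inl (by simp))
      · exact Or.inr (Or.inr (by simp))
  have h3 : Function.Injective (LinearMap.mulLeft F w) := by
    intro x y hxy
    simp only [LinearMap.mulLeft_apply] at hxy
    exact mul_left_cancel₀ hw hxy
  unfold sc
  rw [← LinearEquiv.finrank_eq (Submodule.equivMapOfInjective _ h3 _), h2,
    finrank_span_eq_card h1]
  simp

end Pool.Agent.Helper74.CW
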