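import Pool.Agent.Helper30.CW.SELF
import Pool.Agent.Helper45.CW.FOUR
import Pool.Agent.Helper76.CW.SING
import Pool.Agent.Helper82.CW.SYM
import Pool.Agent.Helper95.CW.QUAD

/-!
# Module IRRA: from a determinantal representation of a cubic to a pair of planes
-/

namespace Pool.Agent.Helper74.CW

open Module Polynomial

variable {F K : Type*} [Field F] [Field K] [Algebra F K]

/-- `∑ x_i X_i` -/
noncomputable def irM (X : Fin 3 → Matrix (Fin 3) (Fin 3) F) :
    Matrix (Fin 3) (Fin 3) (MvPolynomial (Fin 3) F) :=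
  ∑ i, (MvPolynomial.X i : MvPolynomial (Fin 3) F) •
      (X i).map (MvPolynomial.C : F →+* MvPolynomial (Fin 3) F)

theorem irM_apply (X : Fin 3 → Matrix (Fin 3) (Fin 3) F) (a b : Fin 3) :
    irM X a b = ∑ i, MvPolynomial.X i * MvPolynomial.C (X i a b) := by
  simp [irM, Matrix.sum_apply]

theorem irM_mul (X : Fin 3 → Matrix (Fin 3) (Fin 3) F) (A B : Matrix (Fin 3) (Fin 3) F) :
    irM (fun i => A * X i * B) = A.map (MvPolynomial.C : F →+* MvPolynomial (Fin 3) F) * irM X *
      B.map (MvPolynomial.C : F →+* MvPolynomial (Fin 3) F) := by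
  simp only [irM, Matrix.map_mul, Finset.mul_sum, Finset.sum_mul, Matrix.mul_smul, Matrix.smul_mul]

theorem irM_det (X : Fin 3 → Matrix (Fin 3) (Fin 3) F) (A B : Matrix (Fin 3) (Fin 3) F) :
    (irM (fun i => A * X i * B)).det =
      MvPolynomial.C A.det * (irM X).det * MvPolynomial.C B.det := by
  rw [irM_mul, Matrix.det_mul, Matrix.det_mul]
  have h : ∀ A : Matrix (Fin 3) (Fin 3) F,
      (A.map (MvPolynomial.C : F →+* MvPolynomial (Fin 3) F)).det = MvPolynomial.C A.det := by
    intro A
    rw [RingHom.map_det]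
    rfl
  rw [h, h]

theorem ir_not {P Q : MvPolynomial (Fin 3) F} (hP : MvPolynomial.eval 0 P = 0)
    (hQ : MvPolynomial.eval 0 Q = 0) : ¬ Irreducible (P * Q) := by
  intro h
  rcases h.isUnit_or_isUnit rfl with h1 | h1
  · have := h1.map (MvPolynomial.eval (0 : Fin 3 → F))
    rw [hP] at this
    exact not_isUnit_zero this
  · have := h1.map (MvPolynomial.eval (0 : Fin 3 → F))
    rw [hQ] at this
    exact not_isUnit_zero this

theorem ir_irr {X : Fin 3 → Matrix (Fin 3) (Fin 3) F} (h : Irreducible (irM X).det)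
    {A B : Matrix (Fin 3) (Fin 3) F} (hA : A.det ≠ 0) (hB : B.det ≠ 0) :
    Irreducible (irM (fun i => A * X i * B)).det := by
  rw [irM_det]
  have h1 : IsUnit (MvPolynomial.C A.det : MvPolynomial (Fin 3) F) :=
    (IsUnit.mk0 _ hA).map MvPolynomial.C
  have h2 : IsUnit (MvPolynomial.C B.det : MvPolynomial (Fin 3) F) :=
    (IsUnit.mk0 _ hB).map MvPolynomial.C
  rw [irreducible_mul_isUnit h2, irreducible_isUnit_mul h1]
  exact h

/-- the cross product -/
def irn {R : Type*} [CommRing R] (p r : Fin 3 → R) : Fin 3 → R :=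
  ![p 1 * r 2 - p 2 * r 1, p 2 * r 0 - p 0 * r 2, p 0 * r 1 - p 1 * r 0]

theorem irn_mul {R : Type*} [CommRing R] {m p r : Fin 3 → R} (h1 : ∑ b, p b * m b = 0)
    (h2 : ∑ b, r b * m b = 0) (j k : Fin 3) : m j * irn p r k = m k * irn p r j := by
  simp only [Fin.sum_univ_three] at h1 h2
  fin_cases j <;> fin_cases k <;> simp only [irn, Fin.zero_eta, Fin.mk_one, Fin.reduceFinMk,
    Matrix.cons_val_zero, Matrix.cons_val_one, Matrix.cons_val]
  · linear_combination p 2 * h2 - r 2 * h1
  · linear_combination -p 1 * h2 + r 1 * h1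
  · linear_combination -p 2 * h2 + r 2 * h1
  · linear_combination p 0 * h2 - r 0 * h1
  · linear_combination p 1 * h2 - r 1 * h1
  · linear_combination -p 0 * h2 + r 0 * h1

theorem ir_span {z : Fin 3 → K} (hd : ¬ LinearIndependent F z) : ∃ p r : Fin 3 → F, irn p r ≠ 0 ∧
    ∃ l m : K, ∀ b, z b = l * algebraMap F K (p b) + m * algebraMap F K (r b) := by
  rw [Fintype.not_linearIndependent_iff] at hd
  obtain ⟨g, hg, i, hi⟩ := hd
  simp only [Fin.sum_univ_three, Algebra.smul_def] at hg
  have hi' : algebraMap F K (g i) ≠ 0 := by simpa using hi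
  fin_cases i
  · refine ⟨![-g 1 / g 0, 1, 0], ![-g 2 / g 0, 0, 1], ?_, z 1, z 2, ?_⟩
    · intro h
      have := congrFun h 0
      simp [irn] at this
    · intro b
      change algebraMap F K (g 0) ≠ 0 at hi'
      fin_cases b
      · simp
        field_simp
        linear_combination hg
      · simp
      · simp
  · refine ⟨![1, -g 0 / g 1, 0], ![0, -g 2 / g 1, 1], ?_, z 0, z 2, ?_⟩
    · intro h
      have := congrFun h 1
      simp [irn] at this
    · intro b
      change algebraMap F K (g 1) ≠ 0 at hi'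
      fin_cases b
      · simp
      · simp
        field_simp
        linear_combination hg
      · simp
  · refine ⟨![1, 0, -g 0 / g 2], ![0, 1, -g 1 / g 2], ?_, z 0, z 1, ?_⟩
    · intro h
      have := congrFun h 2
      simp [irn] at this
    · intro b
      change algebraMap F K (g 2) ≠ 0 at hi'
      fin_cases b
      · simp
      · simp
      · simp
        field_simp
        linear_combination hg

theorem ir_B (hB : Big F K) {w z : Fin 3 → K} (hw : LinearIndependent F w) (hz : z ≠ 0)
    (hd : ¬ LinearIndependent F z) (T : Fin 3 → Fin 3 → Fin 3 → F)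
    (h : ∀ c, ∑ a, ∑ b, T a b c • (w a * z b) = 0) :
    (∃ β : Fin 3 → F, β ≠ 0 ∧ ∀ a c, ∑ b, β b * T a b c = 0) ∨
    (∃ (γ p r : Fin 3 → F), γ ≠ 0 ∧ irn p r ≠ 0 ∧
      ∀ a, (∑ b, p b * ∑ c, T a b c * γ c = 0) ∧ (∑ b, r b * ∑ c, T a b c * γ c = 0)) := by
  obtain ⟨p, r, hpr, l, m, hlm⟩ := ir_span hd
  have hwi := Fintype.linearIndependent_iff.1 hw
  set P : Fin 3 → Fin 3 → F := fun a c => ∑ b, p b * T a b c with hP
  set R : Fin 3 → Fin 3 → F := fun a c => ∑ b, r b * T a b c with hR
  have h1 : ∀ c, l * (∑ a, P a c • w a) + m * (∑ a, R a c • w a) = 0 := by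
    intro c
    rw [← h c]
    simp only [hP, hR, hlm, Algebra.smul_def, Fin.sum_univ_three, map_add, map_mul]
    ring
  have hp0 : p ≠ 0 := by
    rintro rfl
    apply hpr
    funext i
    fin_cases i <;> simp [irn]
  have hr0 : r ≠ 0 := by
    rintro rfl
    apply hpr
    funext i
    fin_cases i <;> simp [irn]
  by_cases hm : m = 0
  · have hl : l ≠ 0 := by
      rintro rfl
      apply hz
      funext b
      rw [hlm, hm]
      simp
    left
    refine ⟨p, hp0, fun a c => ?_⟩
    have h2 := h1 c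
    rw [hm, zero_mul, add_zero] at h2
    exact hwi _ ((mul_eq_zero.1 h2).resolve_left hl) a
  by_cases hl : l = 0
  · left
    refine ⟨r, hr0, fun a c => ?_⟩
    have h2 := h1 c
    rw [hl, zero_mul, zero_add] at h2
    exact hwi _ ((mul_eq_zero.1 h2).resolve_left hm) a
  by_cases hdet : (Matrix.of R).det = 0
  · right
    obtain ⟨γ, hγ, hγ0⟩ := Matrix.exists_mulVec_eq_zero_iff.2 hdet
    have h2 : ∀ a, ∑ c, R a c * γ c = 0 := fun a => congrFun hγ0 a
    have h3 : ∀ a, ∑ c, P a c * γ c = 0 := by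
      apply hwi
      have h4 : l * (∑ a, (∑ c, P a c * γ c) • w a) + m * (∑ a, (∑ c, R a c * γ c) • w a) = 0 := by
        have h5 : ∑ c, algebraMap F K (γ c) *
            (l * (∑ a, P a c • w a) + m * (∑ a, R a c • w a)) = 0 := by
          apply Finset.sum_eq_zero
          intro c _
          rw [h1, mul_zero]
        rw [← h5]
        simp only [Algebra.smul_def, Fin.sum_univ_three, map_add, map_mul]
        ring
      simp only [h2, zero_smul, Finset.sum_const_zero, mul_zero, add_zero] at h4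
      exact (mul_eq_zero.1 h4).resolve_left hl
    refine ⟨γ, p, r, hγ, hpr, fun a => ⟨?_, ?_⟩⟩
    · rw [← h3 a]
      simp only [hP, Fin.sum_univ_three]
      ring
    · rw [← h2 a]
      simp only [hR, Fin.sum_univ_three]
      ring
  · left
    have hcol : m / l ∈ colon (Submodule.span F (Set.range w)) (Submodule.span F (Set.range w)) := by
      intro x hx
      obtain ⟨c, rfl⟩ := (Submodule.mem_span_range_iff_exists_fun F).1 hx
      set γ : Fin 3 → F := (Matrix.of R)⁻¹.mulVec c with hγ
      have hu : IsUnit (Matrix.of R).det := IsUnit.mk0 _ hdet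
      have h2 : (Matrix.of R).mulVec γ = c := by
        rw [hγ, Matrix.mulVec_mulVec, Matrix.mul_nonsing_inv _ hu, Matrix.one_mulVec]
      have h3 : ∀ a, c a = ∑ c', R a c' * γ c' := fun a => (congrFun h2 a).symm
      have h4 : m / l * ∑ i, c i • w i = -∑ c', γ c' • (∑ a, P a c' • w a) := by
        have h5 : ∑ c, algebraMap F K (γ c) *
            (l * (∑ a, P a c • w a) + m * (∑ a, R a c • w a)) = 0 := by
          apply Finset.sum_eq_zero
          intro c _
          rw [h1, mul_zero]
        simp only [h3]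
        rw [div_mul_eq_mul_div, div_eq_iff hl]
        simp only [Algebra.smul_def, Fin.sum_univ_three, map_add, map_mul] at h5 ⊢
        linear_combination h5
      rw [h4]
      refine Submodule.neg_mem _ (Submodule.sum_mem _ fun c' _ => Submodule.smul_mem _ _
        (Submodule.sum_mem _ fun a _ => Submodule.smul_mem _ _ (Submodule.subset_span ⟨a, rfl⟩)))
    have hW : finrank F (Submodule.span F (Set.range w)) = 3 := by
      rw [finrank_span_eq_card hw, Fintype.card_fin]
    obtain ⟨c0, hc0⟩ := self_colon hB hW hcol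
    refine ⟨p + c0 • r, ?_, ?_⟩
    · intro h2
      apply hpr
      have h3 : ∀ i, p i = -(c0 * r i) := fun i => by
        have := congrFun h2 i
        simp only [Pi.add_apply, Pi.smul_apply, smul_eq_mul, Pi.zero_apply] at this
        linear_combination this
      funext i
      fin_cases i <;> simp [irn, h3] <;> ring
    · intro a c
      have h2 : ∀ a, P a c + c0 * R a c = 0 := by
        apply hwi
        have h3 := h1 c
        have h4 : l * ∑ a, (P a c + c0 * R a c) • w a = 0 := by
          rw [← h3]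
          have h5 : m = algebraMap F K c0 * l := by
            rw [hc0]
            field_simp
          rw [h5]
          simp only [Algebra.smul_def, Fin.sum_univ_three, map_add, map_mul]
          ring
        exact (mul_eq_zero.1 h4).resolve_left hl
      rw [← h2 a]
      simp only [hP, hR, Fin.sum_univ_three, Pi.add_apply, Pi.smul_apply, smul_eq_mul]
      ring

theorem irM_eval (X : Fin 3 → Matrix (Fin 3) (Fin 3) F) (v : Fin 3 → F) :
    (irM X).map (MvPolynomial.eval v) = ∑ i, v i • X i := by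
  ext a b
  rw [Matrix.map_apply, irM_apply]
  simp [Matrix.sum_apply]

theorem ir_s1 {X : Fin 3 → Matrix (Fin 3) (Fin 3) F} {β : Fin 3 → F} (hβ : β ≠ 0)
    (h : ∀ a c, ∑ b, β b * X a c b = 0) : (irM X).det = 0 := by
  apply Matrix.exists_mulVec_eq_zero_iff.1
  refine ⟨fun b => MvPolynomial.C (β b), ?_, ?_⟩
  · intro h0
    apply hβ
    funext b
    exact MvPolynomial.C_injective _ _ ((congrFun h0 b).trans (map_zero _).symm)
  · funext c
    have h1 : ∀ a, ∑ b, X a c b * β b = 0 := fun a => by
      rw [← h a c]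
      exact Finset.sum_congr rfl fun b _ => mul_comm _ _
    show ∑ b, irM X c b * MvPolynomial.C (β b) = 0
    have h2 : ∑ b, irM X c b * MvPolynomial.C (β b) =
        ∑ a, MvPolynomial.X a * MvPolynomial.C (∑ b, X a c b * β b) := by
      simp only [irM_apply, Fin.sum_univ_three, map_add, map_mul]
      ring
    rw [h2]
    simp [h1]

theorem ir_t1 {X : Fin 3 → Matrix (Fin 3) (Fin 3) F} {β : Fin 3 → F} (hβ : β ≠ 0)
    (h : ∀ a c, ∑ b, β b * X c b a = 0) : (irM X).det = 0 := by
  apply Matrix.exists_vecMul_eq_zero_iff.1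
  refine ⟨fun b => MvPolynomial.C (β b), ?_, ?_⟩
  · intro h0
    apply hβ
    funext b
    exact MvPolynomial.C_injective _ _ ((congrFun h0 b).trans (map_zero _).symm)
  · funext a
    show ∑ b, MvPolynomial.C (β b) * irM X b a = 0
    have h2 : ∑ b, MvPolynomial.C (β b) * irM X b a =
        ∑ c, MvPolynomial.X c * MvPolynomial.C (∑ b, β b * X c b a) := by
      simp only [irM_apply, Fin.sum_univ_three, map_add, map_mul]
      ring
    rw [h2]
    simp [h]

theorem ir_s2 {X : Fin 3 → Matrix (Fin 3) (Fin 3) F} {γ p r : Fin 3 → F} (hγ : γ ≠ 0)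
    (hpr : irn p r ≠ 0) (h : ∀ a, (∑ b, p b * ∑ c, X a c b * γ c = 0) ∧
      (∑ b, r b * ∑ c, X a c b * γ c = 0)) : ¬ Irreducible (irM X).det := by
  obtain ⟨k0, hk0⟩ : ∃ k, irn p r k ≠ 0 := by
    by_contra hcon
    push Not at hcon
    exact hpr (funext hcon)
  obtain ⟨j0, hj0⟩ : ∃ k, γ k ≠ 0 := by
    by_contra hcon
    push Not at hcon
    exact hγ (funext hcon)
  set m : Fin 3 → MvPolynomial (Fin 3) F := Matrix.vecMul (fun c => MvPolynomial.C (γ c)) (irM X)
    with hm
  have hmb : ∀ b, m b = ∑ c, MvPolynomial.C (γ c) * irM X c b := fun b => rfl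
  have h1 : ∑ b, MvPolynomial.C (p b) * m b = 0 := by
    have h2 : ∑ b, MvPolynomial.C (p b) * m b =
        ∑ a, MvPolynomial.X a * MvPolynomial.C (∑ b, p b * ∑ c, X a c b * γ c) := by
      simp only [hmb, irM_apply, Fin.sum_univ_three, map_add, map_mul]
      ring
    rw [h2]
    simp [(h _).1]
  have h2 : ∑ b, MvPolynomial.C (r b) * m b = 0 := by
    have h2 : ∑ b, MvPolynomial.C (r b) * m b =
        ∑ a, MvPolynomial.X a * MvPolynomial.C (∑ b, r b * ∑ c, X a c b * γ c) := by
      simp only [hmb, irM_apply, Fin.sum_univ_three, map_add, map_mul]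
      ring
    rw [h2]
    simp [(h _).2]
  have h3 := irn_mul (p := fun b => MvPolynomial.C (p b)) (r := fun b => MvPolynomial.C (r b)) h1 h2
  have hn : ∀ k, irn (fun b => MvPolynomial.C (p b)) (fun b => MvPolynomial.C (r b)) k =
      (MvPolynomial.C (irn p r k) : MvPolynomial (Fin 3) F) := by
    intro k
    fin_cases k <;> simp [irn]
  simp only [hn] at h3
  set l : MvPolynomial (Fin 3) F := m k0 * MvPolynomial.C (irn p r k0)⁻¹ with hl
  have h4 : m = l • (fun j => MvPolynomial.C (irn p r j)) := by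
    funext j
    show m j = l * MvPolynomial.C (irn p r j)
    have h5 : (MvPolynomial.C (irn p r k0) : MvPolynomial (Fin 3) F) *
        MvPolynomial.C (irn p r k0)⁻¹ = 1 := by
      rw [← map_mul, mul_inv_cancel₀ hk0, map_one]
    rw [hl]
    linear_combination MvPolynomial.C (irn p r k0)⁻¹ * h3 j k0 - m j * h5
  have h5 : Matrix.vecMul m (irM X).adjugate = (irM X).det • (fun c => MvPolynomial.C (γ c)) := by
    rw [hm, Matrix.vecMul_vecMul, Matrix.mul_adjugate, Matrix.vecMul_smul, Matrix.vecMul_one]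
  rw [h4, Matrix.smul_vecMul] at h5
  have h6 := congrFun h5 j0
  simp only [Pi.smul_apply, smul_eq_mul] at h6
  have h7 : (irM X).det = l * (Matrix.vecMul (fun j => MvPolynomial.C (irn p r j))
      (irM X).adjugate j0 * MvPolynomial.C (γ j0)⁻¹) := by
    have h8 : (MvPolynomial.C (γ j0) : MvPolynomial (Fin 3) F) * MvPolynomial.C (γ j0)⁻¹ = 1 := by
      rw [← map_mul, mul_inv_cancel₀ hj0, map_one]
    linear_combination -MvPolynomial.C (γ j0)⁻¹ * h6 - (irM X).det * h8
  rw [h7]
  have h0 : (irM X).map (MvPolynomial.eval 0) = 0 := by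
    rw [irM_eval]
    simp
  have h00 : ∀ a b, MvPolynomial.eval 0 (irM X a b) = 0 := fun a b => congrFun (congrFun h0 a) b
  apply ir_not
  · rw [hl, hmb, map_mul, map_sum]
    simp only [map_mul, h00, mul_zero, Finset.sum_const_zero, zero_mul]
  · rw [map_mul]
    have h9 : MvPolynomial.eval 0 (Matrix.vecMul (fun j => MvPolynomial.C (irn p r j))
      (irM X).adjugate j0) = 0 := by
      have h10 : (irM X).adjugate.map (MvPolynomial.eval (0 : Fin 3 → F)) = 0 := by
        have := RingHom.map_adjugate (MvPolynomial.eval (0 : Fin 3 → F)) (irM X)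
        rw [RingHom.mapMatrix_apply, RingHom.mapMatrix_apply] at this
        rw [this, h0, Matrix.adjugate_zero]
      have h11 : ∀ a b, MvPolynomial.eval 0 ((irM X).adjugate a b) = 0 :=
        fun a b => congrFun (congrFun h10 a) b
      simp only [Matrix.vecMul, dotProduct, map_sum, map_mul, h11, mul_zero,
        Finset.sum_const_zero]
    rw [h9, zero_mul]

theorem ir_t2 {X : Fin 3 → Matrix (Fin 3) (Fin 3) F} {γ p r : Fin 3 → F}
    (hpr : irn p r ≠ 0) (h : ∀ a, (∑ b, p b * ∑ c, X c b a * γ c = 0) ∧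
      (∑ b, r b * ∑ c, X c b a * γ c = 0)) :
    ∃ a b : Fin 3 → F, ∑ i, γ i • X i = Matrix.vecMulVec a b := by
  obtain ⟨k0, hk0⟩ : ∃ k, irn p r k ≠ 0 := by
    by_contra hcon
    push Not at hcon
    exact hpr (funext hcon)
  refine ⟨irn p r, fun a => (∑ c, X c k0 a * γ c) / irn p r k0, ?_⟩
  ext b a
  have h1 := irn_mul (m := fun b => ∑ c, X c b a * γ c) (h a).1 (h a).2 b k0
  rw [Matrix.vecMulVec_apply, mul_div_assoc', eq_div_iff hk0, mul_comm (irn p r b), ← h1]
  congr 1
  rw [Matrix.sum_apply]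
  exact Finset.sum_congr rfl fun c _ => by rw [Matrix.smul_apply, smul_eq_mul, mul_comm]

theorem ir_cob {s t : Fin 3 → K} (hs : LinearIndependent F s) {ξ : K}
    (h : ∀ j, s j ∈ sc ξ (Submodule.span F (Set.range t))) :
    ∃ G : Matrix (Fin 3) (Fin 3) F, G.det ≠ 0 ∧ ∀ j, s j = ξ * ∑ k, G j k • t k := by
  have h1 : ∀ j, ∃ c : Fin 3 → F, s j = ξ * ∑ k, c k • t k := by
    intro j
    obtain ⟨x, hx, hx2⟩ := h j
    obtain ⟨c, rfl⟩ := (Submodule.mem_span_range_iff_exists_fun F).1 hx
    exact ⟨c, by rw [← hx2]; rfl⟩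
  choose G hG using h1
  refine ⟨Matrix.of G, ?_, hG⟩
  intro h0
  obtain ⟨v, hv, hv0⟩ := Matrix.exists_vecMul_eq_zero_iff.2 h0
  have h2 : ∀ k, ∑ j, v j * G j k = 0 := fun k => congrFun hv0 k
  apply hv
  funext j
  apply Fintype.linearIndependent_iff.1 hs v
  have h3 : ∑ i, v i • s i = ξ * ∑ k, (∑ j, v j * G j k) • t k := by
    simp only [hG, Algebra.smul_def, Fin.sum_univ_three, map_add, map_mul]
    ring
  rw [h3]
  simp [h2]

theorem ir_mem {t s : Fin 3 → K} {X : Matrix (Fin 3) (Fin 3) F} :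
    X ∈ NN F t s ↔ ∑ i, ∑ j, X i j • (t i * s j) = 0 := Iff.rfl

theorem ir_right {t s t' : Fin 3 → K} {X G : Matrix (Fin 3) (Fin 3) F} {ξ : K} (hξ : ξ ≠ 0)
    (h : ∀ j, s j = ξ * ∑ k, G j k • t' k) (hX : X ∈ NN F t s) : X * G ∈ NN F t t' := by
  rw [ir_mem] at hX ⊢
  have h1 : ξ * ∑ i, ∑ j, (X * G) i j • (t i * t' j) = ∑ i, ∑ j, X i j • (t i * s j) := by
    simp only [h, Matrix.mul_apply, Algebra.smul_def, Fin.sum_univ_three, map_add, map_mul]
    ring
  rw [hX] at h1
  exact (mul_eq_zero.1 h1).resolve_left hξ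

theorem ir_left {t s t' : Fin 3 → K} {X G : Matrix (Fin 3) (Fin 3) F} {ξ : K} (hξ : ξ ≠ 0)
    (h : ∀ j, t j = ξ * ∑ k, G j k • t' k) (hX : X ∈ NN F t s) :
    G.transpose * X ∈ NN F t' s := by
  rw [ir_mem] at hX ⊢
  have h1 : ξ * ∑ i, ∑ j, (G.transpose * X) i j • (t' i * s j) =
      ∑ i, ∑ j, X i j • (t i * s j) := by
    simp only [h, Matrix.mul_apply, Matrix.transpose_apply, Algebra.smul_def, Fin.sum_univ_three,
      map_add, map_mul]
    ring
  rw [hX] at h1
  exact (mul_eq_zero.1 h1).resolve_left hξ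

/-- the two planes are not proportional -/
theorem ir_sim [Finite F] (hB : Big F K) {t s : Fin 3 → K} (ht : LinearIndependent F t)
    (hs : LinearIndependent F s) {X : Fin 3 → Matrix (Fin 3) (Fin 3) F}
    (hX : ∀ i, X i ∈ NN F t s) (hirr : Irreducible (irM X).det) :
    ¬ Sim (Submodule.span F (Set.range s)) (Submodule.span F (Set.range t)) := by
  rintro ⟨ξ, hξ, he⟩
  obtain ⟨G, hG, hsG⟩ := ir_cob hs (ξ := ξ) (t := t) (fun j => by
    rw [← he]; exact Submodule.subset_span ⟨j, rfl⟩)
  have hX2 : ∀ i, X i * G ∈ NN F t t := fun i => ir_right hξ hsG (hX i)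
  by_cases hcon : Con (Submodule.span F (Set.range t))
  · obtain ⟨w, a, hw, ha, heq⟩ := hcon
    have hr : Set.range (![1, a, a ^ 2] : Fin 3 → K) = {1, a, a ^ 2} := by
      ext x
      constructor
      · rintro ⟨i, rfl⟩
        fin_cases i <;> simp
      · rintro (rfl | rfl | rfl)
        · exact ⟨0, rfl⟩
        · exact ⟨1, rfl⟩
        · exact ⟨2, rfl⟩
    obtain ⟨H, hH, htH⟩ := ir_cob ht (ξ := w) (t := ![1, a, a ^ 2]) (fun j => by
      rw [hr, ← heq]; exact Submodule.subset_span ⟨j, rfl⟩)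
    have hX3 : ∀ i, H.transpose * X i * (G * H) ∈ NN F ![1, a, a ^ 2] ![1, a, a ^ 2] := by
      intro i
      have := ir_left hw htH (ir_right hw htH (hX2 i))
      rw [Matrix.mul_assoc (X i), ← Matrix.mul_assoc] at this
      exact this
    have hirr2 := ir_irr hirr (A := H.transpose) (B := G * H) (by rw [Matrix.det_transpose]; exact hH)
      (by rw [Matrix.det_mul]; exact mul_ne_zero hG hH)
    choose p hp using fun i => (selfM_mem hB ha _).1 (hX3 i)
    simp only [← hp] at hirr2
    set Y := irM fun i => selfM (p i) with hY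
    have e00 : Y 0 0 = 0 := by
      rw [hY, irM_apply]
      simp [selfM]
    have e22 : Y 2 2 = 0 := by
      rw [hY, irM_apply]
      simp [selfM]
    have e10 : Y 1 0 = - Y 0 1 := by
      rw [hY, irM_apply, irM_apply]
      simp [selfM]
    have e21 : Y 2 1 = - Y 1 2 := by
      rw [hY, irM_apply, irM_apply]
      simp [selfM]
    have e11 : Y 1 1 = - Y 0 2 - Y 2 0 := by
      rw [hY, irM_apply, irM_apply, irM_apply]
      simp only [selfM, Fin.sum_univ_three]
      simp
      ring
    have hdet : Y.det = (Y 0 2 + Y 2 0) * (Y 0 1 * Y 1 2 + Y 0 2 * Y 2 0) := by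
      rw [Matrix.det_fin_three, e00, e22, e10, e21, e11]
      ring
    rw [hdet] at hirr2
    have h0 : (irM fun i => selfM (p i)).map (MvPolynomial.eval 0) = 0 := by
      rw [irM_eval]
      simp
    have h00 : ∀ a b, MvPolynomial.eval 0 (Y a b) = 0 := fun a b => congrFun (congrFun h0 a) b
    exact ir_not (by rw [map_add, h00, h00, add_zero])
      (by rw [map_add, map_mul, map_mul, h00, h00, h00]; ring) hirr2
  · have halt : ∀ i, (X i * G).transpose = -(X i * G) ∧ ∀ j, (X i * G) j j = 0 := by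
      intro i
      by_contra h
      exact hcon (con_of_quadric hB ht (hX2 i) h)
    have hirr2 := ir_irr hirr (A := 1) (B := G) (by simp) hG
    simp only [Matrix.one_mul] at hirr2
    set Y := irM fun i => X i * G with hY
    have hd : ∀ j, Y j j = 0 := by
      intro j
      rw [hY, irM_apply]
      apply Finset.sum_eq_zero
      intro i _
      rw [(halt i).2 j, map_zero, mul_zero]
    have hs' : ∀ j k, Y k j = - Y j k := by
      intro j k
      rw [hY, irM_apply, irM_apply, ← Finset.sum_neg_distrib]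
      apply Finset.sum_congr rfl
      intro i _
      have := congrFun (congrFun (halt i).1 j) k
      rw [Matrix.transpose_apply, Matrix.neg_apply] at this
      rw [this, map_neg, mul_neg]
    apply hirr2.ne_zero
    rw [Matrix.det_fin_three, hd, hd, hd, hs' 0 1, hs' 0 2, hs' 1 2]
    ring

-- === IRRA (uses SING, FOUR, QUAD, LINE)
theorem real_of_det [Finite F] [FiniteDimensional F K] (hB : Big F K)
    {X : Fin 3 → Matrix (Fin 3) (Fin 3) F} {C : MvPolynomial (Fin 3) F} (hC : Irreducible C)
    (_hhom : C.IsHomogeneous 3)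
    (hdet : (∑ i, (MvPolynomial.X i : MvPolynomial (Fin 3) F) •
      (X i).map (MvPolynomial.C : F →+* MvPolynomial (Fin 3) F)).det = C)
    (hrk : ∀ v : Fin 3 → F, v ≠ 0 → ∀ a b : Fin 3 → F, ∑ i, v i • X i ≠ Matrix.vecMulVec a b)
    {u : Fin 3 → K} (hu : LinearIndependent F u) (hCu : MvPolynomial.aeval u C = 0) :
    Real33 F K (zeros C) := by
  change (irM X).det = C at hdet
  have hirr : Irreducible (irM X).det := by rw [hdet]; exact hC
  -- the point
  have hA : (∑ i, u i • (X i).map (algebraMap F K)).det = 0 := by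
    rw [← hCu, ← hdet]
    have h1 := RingHom.map_det (MvPolynomial.aeval u : MvPolynomial (Fin 3) F →ₐ[F] K).toRingHom
      (irM X)
    have h2 : (MvPolynomial.aeval u : MvPolynomial (Fin 3) F →ₐ[F] K).toRingHom.mapMatrix (irM X) =
        ∑ i, u i • (X i).map (algebraMap F K) := by
      ext a b
      rw [RingHom.mapMatrix_apply, Matrix.map_apply, irM_apply]
      simp [Matrix.sum_apply]
    rw [h2] at h1
    exact h1.symm
  obtain ⟨s, hs0, hs⟩ := Matrix.exists_mulVec_eq_zero_iff.2 hA
  have hs1 : ∀ c, ∑ a, ∑ b, X a c b • (u a * s b) = 0 := by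
    intro c
    have h1 := congrFun hs c
    simp only [Matrix.mulVec, dotProduct, Matrix.sum_apply, Matrix.smul_apply, Matrix.map_apply,
      Pi.zero_apply, smul_eq_mul] at h1
    rw [← h1]
    simp only [Algebra.smul_def, Fin.sum_univ_three]
    ring
  set V : Matrix (Fin 3) (Fin 3) K := fun i b => ∑ c, algebraMap F K (X i b c) * s c with hV
  have hV0 : V.det = 0 := by
    apply Matrix.exists_vecMul_eq_zero_iff.1
    refine ⟨u, ?_, ?_⟩
    · intro h0
      exact hu.ne_zero 0 (congrFun h0 0)
    · funext c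
      show ∑ a, u a * V a c = 0
      rw [← hs1 c]
      simp only [hV, Algebra.smul_def, Fin.sum_univ_three]
      ring
  obtain ⟨t, ht0, ht⟩ := Matrix.exists_mulVec_eq_zero_iff.2 hV0
  have ht1 : ∀ i, ∑ b, V i b * t b = 0 := fun i => congrFun ht i
  have hmem : ∀ i, X i ∈ NN F t s := by
    intro i
    rw [ir_mem, ← ht1 i]
    simp only [hV, Algebra.smul_def, Fin.sum_univ_three]
    ring
  have hsi : LinearIndependent F s := by
    by_contra hd
    rcases ir_B hB hu hs0 hd (fun a b c => X a c b) hs1 with ⟨β, hβ, h⟩ | ⟨γ, p, r, hγ, hpr, h⟩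
    · exact hirr.ne_zero (ir_s1 hβ h)
    · exact ir_s2 hγ hpr h hirr
  have hti : LinearIndependent F t := by
    by_contra hd
    rcases ir_B hB hsi ht0 hd (fun a b c => X c b a) (fun c => by
      have h1 := hmem c
      rw [ir_mem] at h1
      rw [← h1, Finset.sum_comm]
      simp only [mul_comm]) with ⟨β, hβ, h⟩ | ⟨γ, p, r, hγ, hpr, h⟩
    · exact hirr.ne_zero (ir_t1 hβ h)
    · obtain ⟨a, b, hab⟩ := ir_t2 hpr h
      exact hrk γ hγ a b hab
  have hsim := ir_sim hB hti hsi hmem hirr
  -- the count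
  have hS : finrank F (Submodule.span F (Set.range s)) = 3 := by
    rw [finrank_span_eq_card hsi, Fintype.card_fin]
  have hT : finrank F (Submodule.span F (Set.range t)) = 3 := by
    rw [finrank_span_eq_card hti, Fintype.card_fin]
  refine ⟨_, _, hS, hT, hsim, ?_⟩
  have hcs := card_sing hti hsi
  rw [inn_three hS hT hsim, mul_zero, add_zero] at hcs
  rw [← hcs]
  have hXi : LinearIndependent F X := by
    rw [Fintype.linearIndependent_iff]
    intro v hv
    by_contra hcon
    push Not at hcon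
    obtain ⟨i, hi⟩ := hcon
    apply hrk v (fun h => hi (congrFun h i)) 0 0
    rw [hv]
    ext a b
    simp
  have hspan : Submodule.span F (Set.range X) = NN F t s := by
    apply Submodule.eq_of_le_of_finrank_le
    · rw [Submodule.span_le]
      rintro _ ⟨i, rfl⟩
      exact hmem i
    · rw [finrank_span_eq_card hXi, Fintype.card_fin]
      by_contra hcon
      exact hsim (four_le hB hti hsi (by omega))
  unfold sing zeros
  symm
  apply Nat.card_congr
  refine Equiv.ofBijective (fun v => ⟨∑ i, v.1 i • X i, ?_, ?_, ?_⟩) ⟨?_, ?_⟩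
  · exact Submodule.sum_mem _ fun i _ => Submodule.smul_mem _ _ (hmem i)
  · intro h0
    exact v.2.1 (funext (Fintype.linearIndependent_iff.1 hXi v.1 h0))
  · rw [← irM_eval, ← RingHom.mapMatrix_apply, ← RingHom.map_det, hdet]
    exact v.2.2
  · intro v v' h
    have h1 : ∑ i, v.1 i • X i = ∑ i, v'.1 i • X i := congrArg Subtype.val h
    apply Subtype.ext
    funext i
    have h2 : ∑ i, (v.1 i - v'.1 i) • X i = 0 := by
      simp only [sub_smul, Finset.sum_sub_distrib, h1, sub_self]
    exact sub_eq_zero.1 (Fintype.linearIndependent_iff.1 hXi _ h2 i)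
  · rintro ⟨Y, hY, hY0, hYd⟩
    rw [← hspan] at hY
    obtain ⟨c, rfl⟩ := (Submodule.mem_span_range_iff_exists_fun F).1 hY
    refine ⟨⟨c, ?_, ?_⟩, rfl⟩
    · rintro rfl
      simp at hY0
    · rw [← hdet, RingHom.map_det, RingHom.mapMatrix_apply, irM_eval]
      exact hYd

end Pool.Agent.Helper74.CW
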