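import Pool.Agent.Helper74.CW.BIG

/-!
# A plane meeting a multiple of itself in a line
-/

namespace Pool.Agent.Helper74.CW

open Module Polynomial

variable {F K : Type*} [Field F] [Field K] [Algebra F K]

private lemma mem_sc' {ξ x : K} {T : Submodule F K} : x ∈ sc ξ T ↔ ∃ t ∈ T, ξ * t = x := by
  unfold sc
  rw [Submodule.mem_map]
  rfl

private lemma finrank_sc' {ξ : K} (hξ : ξ ≠ 0) (T : Submodule F K) :
    finrank F (sc ξ T) = finrank F T := by
  have h3 : Function.Injective (LinearMap.mulLeft F ξ) := by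
    intro x y hxy
    simp only [LinearMap.mulLeft_apply] at hxy
    exact mul_left_cancel₀ hξ hxy
  unfold sc
  exact (LinearEquiv.finrank_eq (Submodule.equivMapOfInjective _ h3 _)).symm

theorem con_of (hB : Big F K) {S : Submodule F K} (hS : finrank F S = 3) {ρ : K}
    (hρ : ρ ∉ Set.range (algebraMap F K)) (h : 2 ≤ finrank F ↥(S ⊓ sc ρ S)) : Con S := by
  have hfin : FiniteDimensional F S := FiniteDimensional.of_finrank_pos (by omega)
  have hρ0 : ρ ≠ 0 := by
    rintro rfl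
    exact hρ ⟨0, map_zero _⟩
  set P := S ⊓ sc ρ S with hP
  have hPS : P ≤ S := inf_le_left
  have hP'S : sc ρ⁻¹ P ≤ S := by
    intro x hx
    obtain ⟨p, hp, rfl⟩ := mem_sc'.1 hx
    obtain ⟨y, hy, rfl⟩ := mem_sc'.1 hp.2
    rwa [inv_mul_cancel_left₀ hρ0]
  have h1 : finrank F (sc ρ⁻¹ P) = finrank F P := finrank_sc' (inv_ne_zero hρ0) P
  have hf1 : FiniteDimensional F P := Submodule.finiteDimensional_of_le hPS
  have hf2 : FiniteDimensional F (sc ρ⁻¹ P) := Submodule.finiteDimensional_of_le hP'S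
  have h2 := Submodule.finrank_sup_add_finrank_inf_eq P (sc ρ⁻¹ P)
  have h3 : finrank F ↥(P ⊔ sc ρ⁻¹ P) ≤ 3 := by
    rw [← hS]
    exact Submodule.finrank_mono (sup_le hPS hP'S)
  have h4 : P ⊓ sc ρ⁻¹ P ≠ ⊥ := by
    intro h5
    rw [h5, finrank_bot] at h2
    omega
  obtain ⟨w, hw, hw0⟩ := Submodule.exists_mem_ne_zero_of_ne_bot h4
  obtain ⟨x, hx, hxw⟩ := mem_sc'.1 hw.1.2
  obtain ⟨p, hp, hpw⟩ := mem_sc'.1 hw.2
  have hp' : p = ρ * w := by
    rw [← hpw, mul_inv_cancel_left₀ hρ0]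
  have hx0 : x ≠ 0 := by
    rintro rfl
    exact hw0 (by rw [← hxw, mul_zero])
  have hcon : Con (sc x (Submodule.span F {1, ρ, ρ ^ 2})) := ⟨x, ρ, hx0, hρ, rfl⟩
  have h6 : sc x (Submodule.span F {1, ρ, ρ ^ 2}) ≤ S := by
    unfold sc
    rw [Submodule.map_span_le]
    intro y hy
    simp only [Set.mem_insert_iff, Set.mem_singleton_iff] at hy
    rcases hy with rfl | rfl | rfl
    · simpa using hx
    · rw [LinearMap.mulLeft_apply, mul_comm, hxw]
      exact hw.1.1
    · have : x * ρ ^ 2 = p := by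
        rw [hp', ← hxw]
        ring
      rw [LinearMap.mulLeft_apply, this]
      exact hp.1
  have h7 := hB.con_finrank hcon
  rw [← Submodule.eq_of_le_of_finrank_eq h6 (by rw [h7, hS])]
  exact hcon

end Pool.Agent.Helper74.CW
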