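import Pool.Agent.Helper10.CW.CONC
import Pool.Agent.Helper19.CW.SMALL
import Pool.Agent.Helper30.CW.CNT
import Pool.Agent.Helper30.CW.SELF
import Pool.Agent.Helper36.CW.STR
import Pool.Agent.Helper45.CW.FOUR
import Pool.Agent.Helper5.CW.DUAL
import Pool.Agent.Helper5.CW.TWO
import Pool.Agent.Helper62.CW.BND
import Pool.Agent.Helper62.CW.LIN
import Pool.Agent.Helper64.CW.PTS
import Pool.Agent.Helper70.CW.CONN
import Pool.Agent.Helper70.CW.EX5
import Pool.Agent.Helper70.CW.RE0
import Pool.Agent.Helper70.CW.RE123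
import Pool.Agent.Helper70.CW.REaux
import Pool.Agent.Helper74.CW.BIG
import Pool.Agent.Helper74.CW.Defs
import Pool.Agent.Helper74.CW.IRRA
import Pool.Agent.Helper74.CW.LINE
import Pool.Agent.Helper74.CW.TYI
import Pool.Agent.Helper74.CW.TYII
import Pool.Agent.Helper76.CW.SING
import Pool.Agent.Helper82.CW.NET
import Pool.Agent.Helper82.CW.SYM
import Pool.Agent.Helper90.CW.IRRB
import Pool.Agent.Helper90.CW.REQ
import Pool.Agent.Helper95.CW.QUAD
import Pool.Agent.Helper96.CW.HOM
import Pool.Agent.Helper96.CW.PENC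

/-!
# Assembly
-/

namespace Pool.Agent.Helper74.CW

open Module Polynomial

variable {F K : Type*} [Field F] [Field K] [Algebra F K]

lemma exists_dim [FiniteDimensional F K] {s : ℕ} (hs : s ≤ finrank F K) :
    ∃ S : Submodule F K, finrank F S = s := by
  let b := Module.finBasis F K
  refine ⟨Submodule.span F (Set.range fun i : Fin s => b (Fin.castLE hs i)), ?_⟩
  rw [finrank_span_eq_card]
  · simp
  · exact b.linearIndependent.comp _ (Fin.castLE_injective hs)

lemma exists_dim_gt [FiniteDimensional F K] (S : Submodule F K) : finrank F S ≤ finrank F K :=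
  Submodule.finrank_le S

lemma qpos [Finite F] : 2 ≤ Nat.card F := Finite.one_lt_card

/-- the values of the inner distribution from those at `2` and `3` -/
lemma e3_of [Finite F] [FiniteDimensional F K] {S T : Submodule F K} (hS : finrank F S = 3)
    (hT : finrank F T = 3) {b m : ℕ} (h2 : inn S T 2 = (Nat.card F - 1) * m)
    (h3 : inn S T 3 = (Nat.card F - 1) * b) : inn S T = e3 (Nat.card F) (finrank F K) b m := by
  have hq := qpos (F := F)
  obtain ⟨q, hq1⟩ : ∃ q, Nat.card F = q + 1 := ⟨Nat.card F - 1, by omega⟩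
  have hq0 : 1 ≤ q := by omega
  have e4 := inn_weighted S T hT.le
  have e5 := inn_total S T hT.le
  rw [Finset.sum_range_succ, Finset.sum_range_succ, Finset.sum_range_succ,
    Finset.sum_range_one, h2, h3, hS, hT] at e4
  rw [Finset.sum_range_succ, Finset.sum_range_succ, Finset.sum_range_succ,
    Finset.sum_range_one, h2, h3] at e5
  rw [hq1] at e4 e5 ⊢ h2 h3
  simp only [Nat.add_sub_cancel] at e4 e5 h2 h3 ⊢
  have p1 : (q + 1) ^ 1 - 1 = q := by simp
  have p2 : (q + 1) ^ 2 - 1 = q * (q + 2) := by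
    have : (q + 1) ^ 2 = q * (q + 2) + 1 := by ring
    omega
  have p3 : (q + 1) ^ 3 - 1 = q * ((q + 1) ^ 2 + (q + 1) + 1) := by
    have : (q + 1) ^ 3 = q * ((q + 1) ^ 2 + (q + 1) + 1) + 1 := by ring
    omega
  rw [pow_zero, Nat.sub_self, mul_zero, zero_add, p1, p2, p3] at e4
  have h1 : inn S T 1 = ((q + 1) ^ 3 - 1) * ((q + 1) ^ 2 + (q + 1) + 1) -
      ((q + 1) ^ 2 - 1) * m - ((q + 1) ^ 3 - 1) * b := by
    rw [p2, p3]
    have key : q * (inn S T 1 + q * (q + 2) * m + q * ((q + 1) ^ 2 + (q + 1) + 1) * b) =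
        q * (q * ((q + 1) ^ 2 + (q + 1) + 1) * ((q + 1) ^ 2 + (q + 1) + 1)) := by
      linarith
    have key2 := Nat.eq_of_mul_eq_mul_left hq0 key
    omega
  funext i
  unfold e3
  rcases Nat.lt_or_ge 3 i with hi | hi
  · rw [inn_zero S T (by omega), if_neg (by omega), if_neg (by omega), if_neg (by omega),
      if_neg (by omega)]
  · interval_cases i
    · rw [if_pos rfl, ← h1]
      simp only [Nat.add_sub_cancel]
      omega
    · rw [if_neg (by omega), if_pos rfl, h1]
    · rw [if_neg (by omega), if_neg (by omega), if_pos rfl, h2]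
      simp
    · rw [if_neg (by omega), if_neg (by omega), if_neg (by omega), if_pos rfl, h3]
      simp

lemma e2_of [Finite F] [FiniteDimensional F K] {S T : Submodule F K} (hT : finrank F T = 2) :
    inn S T = e2 (Nat.card F) (finrank F K) (finrank F S) (finrank F (colon S T)) := by
  have hq := qpos (F := F)
  have hj : finrank F (colon S T) ≤ finrank F S := by
    rcases (two_range S T hT).2 with h | h | h
    · -- `S = 0`
      have h1 : S = ⊥ := by
        have := Submodule.finrank_eq_zero.1 h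
        exact this
      have h2 : colon S T = ⊥ := by
        rw [eq_bot_iff]
        intro ξ hξ
        rw [Submodule.mem_bot]
        by_contra h0
        have hT0 : T ≠ ⊥ := by
          rintro rfl
          simp at hT
        obtain ⟨t, ht, ht0⟩ := Submodule.exists_mem_ne_zero_of_ne_bot hT0
        have := hξ t ht
        rw [h1, Submodule.mem_bot] at this
        exact mul_ne_zero h0 ht0 this
      rw [h2]
      simp
    · exact h.le
    · exact h.1.le
  obtain ⟨j, hj1⟩ : ∃ j, finrank F (colon S T) = j := ⟨_, rfl⟩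
  obtain ⟨s, hs1⟩ : ∃ s, finrank F S = s := ⟨_, rfl⟩
  have e4 := inn_weighted S T hT.le
  have e5 := inn_total S T hT.le
  have h2 := inn_colon S T
  rw [hT] at h2
  rw [Finset.sum_range_succ, Finset.sum_range_succ, Finset.sum_range_one, h2, hT] at e4
  rw [Finset.sum_range_succ, Finset.sum_range_succ, Finset.sum_range_one, h2] at e5
  rw [hj1, hs1] at hj
  rw [hj1] at e4 e5 h2
  rw [hs1] at e4
  rw [hj1, hs1]
  obtain ⟨q, hq1⟩ : ∃ q, Nat.card F = q + 1 := ⟨Nat.card F - 1, by omega⟩
  have hq0 : 1 ≤ q := by omega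
  rw [hq1] at e4 e5 ⊢ h2
  have p1 : (q + 1) ^ 1 - 1 = q := by simp
  have p2 : (q + 1) ^ 2 - 1 = q * (q + 2) := by
    have : (q + 1) ^ 2 = q * (q + 2) + 1 := by ring
    omega
  obtain ⟨a, ha⟩ : ∃ a, (q + 1) ^ j = a + 1 := ⟨(q + 1) ^ j - 1, by
    have : 1 ≤ (q + 1) ^ j := Nat.one_le_pow _ _ (by omega)
    omega⟩
  obtain ⟨d, hd⟩ : ∃ d, (q + 1) ^ s = a + 1 + d := ⟨(q + 1) ^ s - (a + 1), by
    have : (q + 1) ^ j ≤ (q + 1) ^ s := Nat.pow_le_pow_right (by omega) hj
    omega⟩
  rw [pow_zero, Nat.sub_self, mul_zero, zero_add, p1, p2, ha, hd] at e4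
  have h1 : inn S T 1 = (q + 1 + 1) * ((q + 1) ^ s - (q + 1) ^ j) := by
    rw [ha, hd]
    have key : q * (inn S T 1 + a * (q + 2)) = q * ((a + d) * (q + 2)) := by
      have e6 : a + 1 + d - 1 = a + d := by omega
      rw [e6] at e4
      simp only [Nat.add_sub_cancel] at e4
      linarith
    have key2 := Nat.eq_of_mul_eq_mul_left hq0 key
    have e7 : a + 1 + d - (a + 1) = d := by omega
    rw [e7]
    have e8 : (a + d) * (q + 2) = a * (q + 2) + d * (q + 2) := by ring
    rw [e8] at key2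
    have e9 : inn S T 1 = d * (q + 2) := by omega
    rw [e9]
    ring
  funext i
  unfold e2
  rcases Nat.lt_or_ge 2 i with hi | hi
  · rw [inn_zero S T (by omega), if_neg (by omega), if_neg (by omega), if_neg (by omega)]
  · interval_cases i
    · rw [if_pos rfl, ← h1]
      omega
    · rw [if_neg (by omega), if_pos rfl, h1]
    · rw [if_neg (by omega), if_neg (by omega), if_pos rfl, h2]

lemma e1_of [Finite F] [FiniteDimensional F K] {S T : Submodule F K} (hT : finrank F T = 1) :
    inn S T = e1 (Nat.card F) (finrank F K) (finrank F S) := by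
  have hq := qpos (F := F)
  have e4 := inn_weighted S T hT.le
  have e5 := inn_total S T hT.le
  rw [Finset.sum_range_succ, Finset.sum_range_one, hT] at e4
  rw [Finset.sum_range_succ, Finset.sum_range_one] at e5
  rw [pow_zero, Nat.sub_self, mul_zero, zero_add] at e4
  have h1 : inn S T 1 = Nat.card F ^ finrank F S - 1 :=
    Nat.eq_of_mul_eq_mul_right (by simp; omega) e4
  have h2 : 1 ≤ Nat.card F ^ finrank F S := Nat.one_le_pow _ _ (by omega)
  have h3 : Nat.card F ^ finrank F S ≤ Nat.card F ^ finrank F K :=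
    Nat.pow_le_pow_right (by omega) (exists_dim_gt S)
  funext i
  unfold e1
  rcases Nat.lt_or_ge 1 i with hi | hi
  · rw [inn_zero S T (by omega), if_neg (by omega), if_neg (by omega)]
  · interval_cases i
    · rw [if_pos rfl]
      omega
    · rw [if_neg (by omega), if_pos rfl, h1]

lemma e0_of [Finite F] [FiniteDimensional F K] {S T : Submodule F K} (hT : finrank F T = 0) :
    inn S T = e0 (Nat.card F) (finrank F K) := by
  have e5 := inn_total S T hT.le
  rw [Finset.sum_range_one] at e5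
  funext i
  unfold e0
  rcases Nat.eq_zero_or_pos i with hi | hi
  · rw [hi, if_pos rfl, e5]
  · rw [inn_zero S T (by omega), if_neg (by omega)]

lemma card_cor {S : Submodule F K} (h : finrank F S = 3) : ∃ s : Fin 3 → K,
    LinearIndependent F s ∧ Submodule.span F (Set.range s) = S := by
  have : FiniteDimensional F S := FiniteDimensional.of_finrank_pos (by omega)
  let b := Module.finBasisOfFinrankEq F S h
  refine ⟨fun i => (b i : K), ?_, ?_⟩
  · have := b.linearIndependent
    exact this.map' S.subtype (Submodule.ker_subtype S)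
  · have h1 : Set.range (fun i => (b i : K)) = S.subtype '' Set.range b := by
      rw [← Set.range_comp]
      rfl
    rw [h1, Submodule.span_image, b.span_eq, Submodule.map_top, Submodule.range_subtype]

lemma span_three (x y z : K) : Submodule.span F (Set.range ![x, y, z]) =
    Submodule.span F {x, y, z} := by
  congr 1
  ext w
  simp only [Set.mem_range, Fin.exists_fin_succ, Set.mem_insert_iff, Set.mem_singleton_iff]
  simp
  tauto

lemma M33_of_list [Finite F] {m : ℕ} (h : m ∈ ({0, 1, 2, 3, Nat.card F + 1, 2 * Nat.card F,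
    2 * Nat.card F + 1, 2 * Nat.card F + 2} : Finset ℕ)) : M33 F K m := by
  have hq := qpos (F := F)
  refine ⟨?_, Or.inr (Or.inl h)⟩
  simp only [Finset.mem_insert, Finset.mem_singleton] at h
  omega

/-- planes which are not similar, one of conic type -/
lemma fwd_con [Finite F] [FiniteDimensional F K] (hB : Big F K) {S T : Submodule F K}
    (hS : finrank F S = 3) (hn : ¬ Sim S T) (hc : Con T) :
    ∃ m, M33 F K m ∧ inn S T 2 = (Nat.card F - 1) * m := by
  obtain ⟨w, a, hw, ha, hT⟩ := hc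
  obtain ⟨s, hs, rfl⟩ := card_cor hS
  have h1 : inn (Submodule.span F (Set.range s)) T 2 =
      inn (Submodule.span F (Set.range s)) (Submodule.span F {1, a, a ^ 2}) 2 := by
    rw [hT, ← inn_sc (Submodule.span F (Set.range s)) (Submodule.span F {1, a, a ^ 2})
      (one_ne_zero) hw]
    congr 1
    unfold sc
    simp
  have hn' : ¬ Sim (Submodule.span F (Set.range s)) (Submodule.span F {1, a, a ^ 2}) := by
    rw [← Sim_sc _ _ (one_ne_zero) hw, ← hT]
    intro h
    apply hn
    unfold sc at h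
    simpa using h
  have ht : LinearIndependent F ![1, a, a ^ 2] := by
    have h2 := (hB.pow ha).comp (Fin.castLE (by norm_num : 3 ≤ 7)) (Fin.castLE_injective _)
    convert h2 using 1
    funext i
    fin_cases i <;> simp
  have hsp := span_three (F := F) 1 a (a ^ 2)
  have h4 : finrank F (NN F ![1, a, a ^ 2] s) ≤ 3 := by
    by_contra h
    apply hn'
    rw [← hsp]
    exact four_le hB ht hs (by omega)
  rw [h1]
  rcases Nat.lt_or_ge (finrank F (NN F ![1, a, a ^ 2] s)) 3 with h5 | h5
  · obtain ⟨m, hm, hm2⟩ := small_N _ (by omega : finrank F (NN F ![1, a, a ^ 2] s) ≤ 2)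
    have h6 := card_sing ht hs
    rw [hsp, inn_three hS (by rw [← hsp, finrank_span_eq_card ht]; simp) hn'] at h6
    refine ⟨m, M33_of_list ?_, by rw [← hm2, h6]; simp⟩
    simp only [Finset.mem_insert, Finset.mem_singleton] at hm ⊢
    omega
  · obtain ⟨m, hm, hm2⟩ := conn_cases hB ha hs hn' (by omega)
    refine ⟨m, M33_of_list ?_, hm2⟩
    simp only [Finset.mem_insert, Finset.mem_singleton] at hm ⊢
    omega

lemma fwd [Finite F] [FiniteDimensional F K] (hB : Big F K) {S T : Submodule F K}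
    (hS : finrank F S = 3) (hT : finrank F T = 3) (hn : ¬ Sim S T) :
    ∃ m, M33 F K m ∧ inn S T 2 = (Nat.card F - 1) * m := by
  by_cases hcT : Con T
  · exact fwd_con hB hS hn hcT
  by_cases hcS : Con S
  · rw [inn_swap]
    exact fwd_con hB hT (fun h => hn (Sim_symm h)) hcS
  obtain ⟨s, hs, rfl⟩ := card_cor hS
  obtain ⟨t, ht, rfl⟩ := card_cor hT
  have h6 := card_sing ht hs
  rw [inn_three hS hT hn, mul_zero, add_zero] at h6
  have h4 : finrank F (NN F t s) ≤ 3 := by
    by_contra h
    exact hn (four_le hB ht hs (by omega))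
  rcases Nat.lt_or_ge (finrank F (NN F t s)) 3 with h5 | h5
  · obtain ⟨m, hm, hm2⟩ := small_N _ (by omega : finrank F (NN F t s) ≤ 2)
    refine ⟨m, M33_of_list ?_, by rw [← hm2, h6]⟩
    simp only [Finset.mem_insert, Finset.mem_singleton] at hm ⊢
    omega
  · obtain ⟨C, hC, hC2⟩ := net hB ht hs hn (by omega) hcS hcT
    obtain ⟨m, hm⟩ := zeros_dvd hC.1
    have h7 := zeros_le hC.2.1 hC.1
    have hq := qpos (F := F)
    rw [hm] at h7
    exact ⟨m, ⟨Nat.le_of_mul_le_mul_left h7 (by omega), Or.inr (Or.inr ⟨C, hC, hm⟩)⟩,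
      by rw [← h6, hC2, hm]⟩

lemma real_irr [Finite F] [FiniteDimensional F K] (hB : Big F K) {a : K}
    (ha : a ∉ Set.range (algebraMap F K)) {C : MvPolynomial (Fin 3) F} (hC : Cub K C) :
    Real33 F K (zeros C) := by
  have hq := qpos (F := F)
  obtain ⟨hhom, hirr, u, hu, hCu⟩ := hC
  obtain ⟨m, hm⟩ := zeros_dvd hhom
  rcases Nat.lt_or_ge (2 * (Nat.card F - 1)) (zeros C) with h | h
  · obtain ⟨g, X, hg, hX, hrk⟩ := det_rep hirr hhom h
    obtain ⟨h1, h2, h3, h4⟩ := subst_facts (K := K) hirr hhom hg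
    obtain ⟨u', hu', hCu'⟩ := h4 u hu hCu
    rw [← h3]
    exact real_of_det hB h1 h2 hX hrk hu' hCu'
  · have h5 : m ≤ 2 := by
      have h6 : 0 < Nat.card F - 1 := by omega
      have h7 : (Nat.card F - 1) * m ≤ (Nat.card F - 1) * 2 := by
        rw [← hm]
        linarith
      exact Nat.le_of_mul_le_mul_left h7 h6
    rw [hm]
    clear h hm
    interval_cases m
    · simpa using real_0 hB ha
    · simpa using real_1 hB ha
    · exact real_2 hB ha

lemma real_of_M33 [Finite F] [FiniteDimensional F K] (hB : Big F K) {a : K}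
    (ha : a ∉ Set.range (algebraMap F K)) {m : ℕ} (hm : M33 F K m) :
    Real33 F K ((Nat.card F - 1) * m) := by
  have hq := qpos (F := F)
  have list : ∀ m ∈ ({0, 1, 2, 3, Nat.card F + 1, 2 * Nat.card F, 2 * Nat.card F + 1,
      2 * Nat.card F + 2} : Finset ℕ), Real33 F K ((Nat.card F - 1) * m) := by
    intro m hm
    simp only [Finset.mem_insert, Finset.mem_singleton] at hm
    rcases hm with rfl | rfl | rfl | rfl | rfl | rfl | rfl | rfl
    · simpa using real_0 hB ha
    · simpa using real_1 hB ha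
    · exact real_2 hB ha
    · exact real_3 hB ha
    · exact real_q1 hB ha
    · exact real_2q hB ha
    · exact real_2q1 hB ha
    · exact real_2q2 hB ha
  obtain ⟨hle, hm | hm | ⟨C, hC, hm⟩⟩ := hm
  · by_cases h5 : m ∈ ({0, 1, 2, 3, Nat.card F + 1, 2 * Nat.card F, 2 * Nat.card F + 1,
      2 * Nat.card F + 2} : Finset ℕ)
    · exact list m h5
    · simp only [Finset.mem_insert, Finset.mem_singleton, not_or] at h5
      have h6 : Nat.card F = 3 ∧ m = 5 := by omega
      obtain ⟨C, hC, hm'⟩ := exists_five h6.1 hB ha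
      rw [h6.2, ← hm']
      exact real_irr hB ha hC
  · exact list m hm
  · rw [← hm]
    exact real_irr hB ha hC

/-- the inner distributions -/
theorem inner_iff [Finite F] [FiniteDimensional F K] {s c : ℕ} (hs : s ≤ finrank F K)
    (hc : c ≤ finrank F K) (h : c = 0 ∨ c = 1 ∨ (c = 2 ∧ 1 ≤ s) ∨
      (c = 3 ∧ s = 3 ∧ finrank F K ≠ 1 ∧ Nat.Coprime (finrank F K) 30)) (e : ℕ → ℕ) :
    (∃ S T : Submodule F K, finrank F S = s ∧ finrank F T = c ∧ inn S T = e) ↔
      Inner F K s c e := by
  have hq := qpos (F := F)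
  constructor
  · rintro ⟨S, T, rfl, rfl, rfl⟩
    rcases h with h | h | ⟨h, h'⟩ | ⟨h, h', h1, hn⟩
    · exact Or.inl ⟨h, e0_of h⟩
    · exact Or.inr (Or.inl ⟨h, e1_of h⟩)
    · refine Or.inr (Or.inr (Or.inl ⟨h, finrank F (colon S T), (two_range S T h).1, ?_, e2_of h⟩))
      rcases (two_range S T h).2 with h2 | h2 | h2
      · omega
      · exact Or.inl h2
      · exact Or.inr h2
    · refine Or.inr (Or.inr (Or.inr ⟨h, h', h1, hn, ?_⟩))
      have hB := Big_of (F := F) (K := K) hn
      by_cases hsim : Sim S T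
      · have h3 : ∀ i, inn S T i = inn S S i := by
          intro i
          obtain ⟨ξ, hξ, h4⟩ := Sim_symm hsim
          rw [h4]
          nth_rewrite 1 [show S = sc 1 S by unfold sc; simp]
          rw [inn_sc _ _ one_ne_zero hξ]
        by_cases hcon : Con S
        · obtain ⟨h4, h5⟩ := self_con hB hcon
          refine ⟨1, Nat.card F ^ 2 + Nat.card F, Or.inl ⟨rfl, Or.inr rfl⟩, e3_of h' h ?_ ?_⟩
          · rw [h3, h5]
          · rw [h3, h4, mul_one]
        · obtain ⟨h4, h5⟩ := self_not hB h' hcon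
          refine ⟨1, 0, Or.inl ⟨rfl, Or.inl rfl⟩, e3_of h' h ?_ ?_⟩
          · rw [h3, h5, mul_zero]
          · rw [h3, h4, mul_one]
      · obtain ⟨m, hm, h2⟩ := fwd hB h' h hsim
        refine ⟨0, m, Or.inr ⟨rfl, hm⟩, e3_of h' h h2 ?_⟩
        rw [inn_three h' h hsim, mul_zero]
  · rintro (⟨rfl, rfl⟩ | ⟨rfl, rfl⟩ | ⟨rfl, j, h1, h2, rfl⟩ | ⟨rfl, rfl, h3, h3', b, m, h1, rfl⟩)
    · obtain ⟨S, hS⟩ := exists_dim (F := F) (K := K) hs
      exact ⟨S, ⊥, hS, by simp, e0_of (by simp)⟩
    · obtain ⟨S, hS⟩ := exists_dim (F := F) (K := K) hs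
      obtain ⟨T, hT⟩ := exists_dim (F := F) (K := K) hc
      exact ⟨S, T, hS, hT, by rw [← hS]; exact e1_of hT⟩
    · obtain ⟨S, T, hS, hT, hj⟩ := two_exists (F := F) (K := K) hc (by omega) hs h1 h2
      exact ⟨S, T, hS, hT, by rw [← hS, ← hj]; exact e2_of hT⟩
    · have hB := Big_of (F := F) (K := K) h3'
      obtain ⟨a, ha⟩ := exists_notin (F := F) (K := K) h3
      rcases h1 with ⟨rfl, rfl | rfl⟩ | ⟨rfl, hm⟩
      · obtain ⟨S, hS, hS2⟩ := exists_not_con hB ha
        obtain ⟨h4, h5⟩ := self_not hB hS hS2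
        exact ⟨S, S, hS, hS, e3_of hS hS (by rw [h5, mul_zero]) (by rw [h4, mul_one])⟩
      · have hcon : Con (Submodule.span F {1, a, a ^ 2}) :=
          ⟨1, a, one_ne_zero, ha, by unfold sc; simp⟩
        have hS := hB.con_finrank hcon
        obtain ⟨h4, h5⟩ := self_con hB hcon
        exact ⟨_, _, hS, hS, e3_of hS hS h5 (by rw [h4, mul_one])⟩
      · obtain ⟨S, T, hS, hT, hsim, h2⟩ := real_of_M33 hB ha hm
        exact ⟨S, T, hS, hT, e3_of hS hT h2 (by rw [inn_three hS hT hsim, mul_zero])⟩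

/-- the weight distributions for `dim S = s` and `dim T = r` -/
theorem occR_iff [Finite F] [FiniteDimensional F K] {s r : ℕ} (hr : 1 ≤ r) (hrs : r ≤ s)
    (hs : s ≤ finrank F K) (h : r ≤ 2 ∨ finrank F K ≤ s + 2 ∨
      (finrank F K ≠ 1 ∧ Nat.Coprime (finrank F K) 30 ∧
        ((r = 3 ∧ s = 3) ∨ (r + 3 = finrank F K ∧ s + 3 = finrank F K)))) (N : ℕ → ℕ) :
    OccR F K s r N ↔ Tup F K s r N := by
  have : Finite K := Module.finite_of_finite F
  obtain ⟨φ, hφ1, hφ2, hφ3⟩ := exists_perp (F := F) (K := K)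
  -- the small description
  have small : (r ≤ 2 ∨ (finrank F K ≠ 1 ∧ Nat.Coprime (finrank F K) 30 ∧ r = 3 ∧ s = 3)) →
      ∀ N, OccR F K s r N ↔ ∃ e, Inner F K s r e ∧ ∀ i, 1 ≤ i → i ≤ s + r →
        N i = e i + (if s = i then 1 else 0) + (if r = i then 1 else 0) := by
    intro h N
    have key := inner_iff (F := F) (K := K) (s := s) (c := r) hs (by omega) (by omega)
    constructor
    · rintro ⟨S, T, hS, hT, hN⟩
      refine ⟨inn S T, (key _).1 ⟨S, T, hS, hT, rfl⟩, fun i h1 h2 => ?_⟩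
      rw [← hN i h1 h2, Nw_prod S T h1, hS, hT]
    · rintro ⟨e, he, hN⟩
      obtain ⟨S, T, hS, hT, rfl⟩ := (key _).2 he
      refine ⟨S, T, hS, hT, fun i h1 h2 => ?_⟩
      rw [hN i h1 h2, Nw_prod S T h1, hS, hT]
  -- duality
  have dual : ∀ S T : Submodule F K, finrank F S = s → finrank F T = r → ∀ i,
      inn S T i = if s + r ≤ i + finrank F K then
        inn (φ T) (φ S) (i + finrank F K - (s + r)) else 0 := by
    intro S T hS hT i
    split_ifs with hi
    · unfold inn
      congr 1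
      have : ∀ ξ : K, (ξ ≠ 0 ∧ finrank F ↥(S ⊓ sc ξ T) = i) ↔
          (ξ ≠ 0 ∧ finrank F ↥(φ T ⊓ sc ξ (φ S)) = i + finrank F K - (s + r)) := by
        intro ξ
        refine and_congr_right fun hξ => ?_
        have := hφ3 S T ξ hξ
        rw [hS, hT] at this
        omega
      simp only [this]
    · unfold inn
      rw [Nat.card_eq_zero]
      left
      constructor
      rintro ⟨ξ, hξ, h1⟩
      have := hφ3 S T ξ hξ
      rw [hS, hT] at this
      omega
  have big : (finrank F K ≤ s + r ∧ (finrank F K ≤ s + 2 ∨ (finrank F K ≠ 1 ∧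
      Nat.Coprime (finrank F K) 30 ∧ r + 3 = finrank F K ∧ s + 3 = finrank F K))) →
      ∀ N, OccR F K s r N ↔ ∃ e, Inner F K (finrank F K - r) (finrank F K - s) e ∧
        ∀ i, 1 ≤ i → i ≤ s + r → N i = (if s + r ≤ i + finrank F K then
          e (i + finrank F K - (s + r)) else 0) +
            (if s = i then 1 else 0) + (if r = i then 1 else 0) := by
    intro h N
    have key := inner_iff (F := F) (K := K) (s := finrank F K - r) (c := finrank F K - s)
      (by omega) (by omega) (by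
        rcases h.2 with h1 | h1
        · have : finrank F K - s ≤ 2 := by omega
          rcases Nat.lt_or_ge (finrank F K - s) 2 with h2 | h2
          · omega
          · right; right; left
            omega
        · right; right; right
          refine ⟨by omega, by omega, h1.1, h1.2.1⟩)
    constructor
    · rintro ⟨S, T, hS, hT, hN⟩
      refine ⟨inn (φ T) (φ S), (key _).1 ⟨φ T, φ S, ?_, ?_, rfl⟩, fun i h1 h2 => ?_⟩
      · have := hφ2 T
        omega
      · have := hφ2 S
        omega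
      · rw [← hN i h1 h2, Nw_prod S T h1, hS, hT, dual S T hS hT]
    · rintro ⟨e, he, hN⟩
      obtain ⟨S', T', hS, hT, rfl⟩ := (key _).2 he
      have d1 : finrank F (φ T') = s := by
        have := hφ2 T'
        omega
      have d2 : finrank F (φ S') = r := by
        have := hφ2 S'
        omega
      refine ⟨φ T', φ S', d1, d2, fun i h1 h2 => ?_⟩
      rw [hN i h1 h2, Nw_prod _ _ h1, d1, d2, dual _ _ d1 d2, hφ1, hφ1]
  unfold Tup
  by_cases h1 : r ≤ 2 ∨ (finrank F K ≠ 1 ∧ Nat.Coprime (finrank F K) 30 ∧ r = 3 ∧ s = 3)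
  · constructor
    · intro hN
      exact Or.inl ((small h1 N).1 hN)
    · rintro (hN | ⟨hn, hN⟩)
      · exact (small h1 N).2 hN
      · obtain ⟨e, he, -⟩ := id hN
        refine (big ⟨hn, ?_⟩ N).2 hN
        -- the second description is nonempty
        rcases he with ⟨h2, -⟩ | ⟨h2, -⟩ | ⟨h2, -⟩ | ⟨h2, h3, h5, h6, -⟩
        · left; omega
        · left; omega
        · left; omega
        · right
          exact ⟨h5, h6, by omega, by omega⟩
  · have h2 : finrank F K ≤ s + r ∧ (finrank F K ≤ s + 2 ∨ (finrank F K ≠ 1 ∧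
        Nat.Coprime (finrank F K) 30 ∧ r + 3 = finrank F K ∧ s + 3 = finrank F K)) := by
      refine ⟨?_, ?_⟩
      · rcases h with h | h | ⟨h3, h4, h5⟩
        · omega
        · omega
        · rcases h5 with h5 | h5
          · exact absurd (Or.inr ⟨h3, h4, h5⟩) h1
          · omega
      · rcases h with h | h | ⟨h3, h4, h5⟩
        · omega
        · exact Or.inl h
        · rcases h5 with h5 | h5
          · exact absurd (Or.inr ⟨h3, h4, h5⟩) h1
          · exact Or.inr ⟨h3, h4, h5⟩
    constructor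
    · intro hN
      exact Or.inr ⟨h2.1, (big h2 N).1 hN⟩
    · rintro (⟨e, he, hN⟩ | ⟨hn, hN⟩)
      · exfalso
        rcases he with ⟨h3, -⟩ | ⟨h3, -⟩ | ⟨h3, -⟩ | ⟨h3, h4, h5, h6, -⟩
        · omega
        · omega
        · omega
        · exact h1 (Or.inr ⟨h5, h6, h3, h4⟩)
      · exact (big h2 N).2 hN

/-- the weight distributions for given `k` and `n` -/
theorem occ_iff [Finite F] [FiniteDimensional F K] {k : ℕ} (h : k ≤ 5 ∨ 2 * finrank F K ≤ k + 5 ∨
    (finrank F K ≠ 1 ∧ Nat.Coprime (finrank F K) 30 ∧ (k ≤ 6 ∨ 2 * finrank F K ≤ k + 6)))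
    (N : ℕ → ℕ) : Occ F K k N ↔ ∃ s r, s + r = k ∧ 1 ≤ r ∧ r ≤ s ∧ s ≤ finrank F K ∧
      Tup F K s r N := by
  have key : ∀ s r, s + r = k → 1 ≤ r → r ≤ s → s ≤ finrank F K →
      (OccR F K s r N ↔ Tup F K s r N) := by
    intro s r h1 h2 h3 h4
    refine occR_iff h2 h3 h4 ?_ N
    rcases h with h | h | ⟨h5, h6, h⟩
    · omega
    · omega
    · by_cases h7 : r ≤ 2 ∨ finrank F K ≤ s + 2
      · omega
      · exact Or.inr (Or.inr ⟨h5, h6, by omega⟩)
  constructor
  · rintro ⟨S, T, h1, h2, h3, h4⟩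
    refine ⟨finrank F S, finrank F T, h1, h2, h3, Submodule.finrank_le S, ?_⟩
    exact (key _ _ h1 h2 h3 (Submodule.finrank_le S)).1 ⟨S, T, rfl, rfl, by rw [h1]; exact h4⟩
  · rintro ⟨s, r, h1, h2, h3, h4, h5⟩
    obtain ⟨S, T, rfl, rfl, h6⟩ := (key s r h1 h2 h3 h4).2 h5
    exact ⟨S, T, h1, h2, h3, by rw [h1] at h6; exact h6⟩

end Pool.Agent.Helper74.CW
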